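import Pool.Agent.Zk33.HG.CT2
import Pool.Agent.Zk33.HF.Main2
import Pool.Agent.Results.MP_fe58d8_pr.UniformDimension

/-!
Collision times of independent exploration paths.
-/

set_option autoImplicit false

namespace Pool.Agent.Zk33.HG

open H984N MeasureTheory Filter Topology Metric Set Pool.Agent.Zk33.HF
open scoped ENNReal NNReal

theorem coll_dim {k : ℕ} (hk : 1 ≤ k) {f : Fin k → unitInterval → ℂ} (hf : ∀ i, CovP (f i))
    (Y : Set ℂ) : dimH (Coll f Y) ≤ 4 / 7 * dimH Y := by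
  have hk0 : (0 : ℝ) < k := by exact_mod_cast hk
  have h2 : dimH Y ≤ 2 := by
    refine (dimH_mono (subset_univ _)).trans ?_
    rw [Real.dimH_univ_eq_finrank, Complex.finrank_real_complex]
    rfl
  have hYtop : dimH Y ≠ ∞ := (h2.trans_lt (by norm_num)).ne
  obtain ⟨D, hD⟩ : ∃ D : ℝ, D = (dimH Y).toReal := ⟨_, rfl⟩
  have hDY : dimH Y = ENNReal.ofReal D := by rw [hD, ENNReal.ofReal_toReal hYtop]
  have hD0 : 0 ≤ D := by rw [hD]; exact ENNReal.toReal_nonneg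
  have h47 : (4 / 7 : ℝ≥0∞) = ENNReal.ofReal (4 / 7) := by
    rw [ENNReal.ofReal_div_of_pos (by norm_num)]
    norm_num
  rw [hDY, h47, ← ENNReal.ofReal_mul (by norm_num)]
  refine ENNReal.le_of_forall_pos_le_add fun ε hε _ => ?_
  have hε' : (0 : ℝ) < ε := by exact_mod_cast hε
  obtain ⟨t, ht⟩ : ∃ t : ℝ, t = 4 / 7 * D + ε := ⟨_, rfl⟩
  have ht0 : 0 < t := by rw [ht]; positivity
  have h1 := coll_haus hf (Y := Y) (s := D + ε / 2) (t := t) (η := (7/4 * ε - ε / 2) / k)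
    (by positivity) (div_pos (by linarith) hk0) ht0 (by
      rw [mul_div_cancel₀ _ hk0.ne', ht]
      linarith) (by
      have h3 : dimH Y < ((Real.toNNReal (D + ε / 2) : ℝ≥0) : ℝ≥0∞) := by
        rw [hDY]
        exact (ENNReal.ofReal_lt_ofReal_iff (by positivity)).2 (by linarith)
      have h4 := hausdorffMeasure_of_dimH_lt h3
      rwa [Real.coe_toNNReal _ (by positivity)] at h4)
  have h5 : dimH (Coll f Y) ≤ ((Real.toNNReal t : ℝ≥0) : ℝ≥0∞) := by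
    apply dimH_le_of_hausdorffMeasure_ne_top
    rw [Real.coe_toNNReal _ ht0.le]
    exact h1
  refine h5.trans ?_
  change ENNReal.ofReal t ≤ _
  rw [ht, ENNReal.ofReal_add (by positivity) hε'.le, ENNReal.ofReal_coe_nnreal]

theorem e47 : (4 / 7 : ℝ≥0∞) * (7 / 4) = 1 := by
  have a1 : (4 / 7 : ℝ≥0∞) = ENNReal.ofReal (4 / 7) := by
    rw [ENNReal.ofReal_div_of_pos (by norm_num)]; norm_num
  have a2 : (7 / 4 : ℝ≥0∞) = ENNReal.ofReal (7 / 4) := by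
    rw [ENNReal.ofReal_div_of_pos (by norm_num)]; norm_num
  rw [a1, a2, ← ENNReal.ofReal_mul (by norm_num)]
  norm_num

theorem coll_eq {k : ℕ} (hk : 1 ≤ k) {f : Fin k → unitInterval → ℂ} (hf : ∀ i, CovP (f i))
    (hu : ∀ i, ∀ E : Set unitInterval, dimH (f i '' E) = 7 / 4 * dimH E) (S : Set ℂ) :
    dimH (Coll f S) = 4 / 7 * dimH (S ∩ ⋂ i, range (f i)) := by
  have h1 : Coll f S = Coll f (S ∩ ⋂ i, range (f i)) := by
    ext u
    constructor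
    · rintro ⟨y, hy, h⟩
      exact ⟨y, ⟨hy, mem_iInter.2 fun i => ⟨u i, h i⟩⟩, h⟩
    · rintro ⟨y, hy, h⟩
      exact ⟨y, hy.1, h⟩
  apply le_antisymm
  · rw [h1]
    exact coll_dim hk hf _
  · obtain ⟨i0, -⟩ : ∃ i0 : Fin k, i0.1 = 0 := ⟨⟨0, hk⟩, rfl⟩
    obtain ⟨E, hE⟩ : ∃ E : Set unitInterval, E = (fun u : Fin k → unitInterval => u i0) '' Coll f S :=
      ⟨_, rfl⟩
    have h2 : f i0 '' E = S ∩ ⋂ i, range (f i) := by
      ext z
      constructor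
      · rintro ⟨x, hx, rfl⟩
        rw [hE] at hx
        obtain ⟨u, ⟨y, hy, h⟩, rfl⟩ := hx
        simp only
        rw [h i0]
        exact ⟨hy, mem_iInter.2 fun i => ⟨u i, h i⟩⟩
      · rintro ⟨hz, hz2⟩
        have h3 : ∀ i, ∃ u, f i u = z := fun i => mem_iInter.1 hz2 i
        choose u hu using h3
        refine ⟨u i0, ?_, hu i0⟩
        rw [hE]
        exact ⟨u, ⟨z, hz, hu⟩, rfl⟩
    have h3 : dimH E ≤ dimH (Coll f S) := by
      rw [hE]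
      exact (LipschitzWith.eval (α := fun _ : Fin k => unitInterval) i0).dimH_image_le _
    rw [← h2, hu i0 E, ← mul_assoc, e47, one_mul]
    exact h3

theorem covP_ae (R : Rect) {μ : ProbabilityMeasure X} (hμ : IsLimit R μ) :
    ∀ᵐ p ∂(μ : Measure X), CovP p.1 ∧ ∀ E : Set unitInterval, dimH (p.1 '' E) = 7 / 4 * dimH E := by
  obtain ⟨δ, hδ, hlim, hμ⟩ := hμ
  have hun := (Pool.Agent.Results.MP_fe58d8_pr.UniformDimension.result R).2 δ hδ hlim μ hμ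
  obtain ⟨⟨c, hc, hL⟩, ⟨C, hC, hU⟩, C2, hC2, hA⟩ :=
    Pool.Agent.Results.MP_fe58d8_pr.UniformDimension.inputs
  obtain ⟨h1, h2, h3⟩ := final_of hc hC hL hU hC2 hA R
  have hT : ∀ ε : ℝ, 0 < ε → ∃ Λ δ0 : ℝ, 0 < Λ ∧ 0 < δ0 ∧ ∀ δ : ℝ, 0 < δ → δ ≤ δ0 →
      1 - ε ≤ R.prob δ (fun F => 1 / Λ ≤ R.time δ F) := by
    intro ε hε
    obtain ⟨Λ, δ0, hΛ, hδ0, h⟩ := h1 (1/2) ε (by norm_num) (by norm_num) hε
    refine ⟨Λ, δ0, hΛ, hδ0, fun δ hδ hδ' => (h δ hδ hδ').trans ?_⟩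
    exact Exist_prob_mono R δ fun F _ hF => hF.1.1
  filter_upwards [hun, h3 δ hδ hlim μ hμ,
    H443P.limit_occ_all R hδ hlim hμ hC hU H443U.Sum.t hT] with p hp0 hp ho
  obtain ⟨-, -, -, -, g5, -⟩ := hp
  refine ⟨covP_of g5 fun α h0 h4 => ?_, hp0⟩
  obtain ⟨Λ, -, h⟩ := ho α h0 h4
  exact ⟨Λ, h⟩

/-- **Collision times.** -/
theorem coll_ae {k : ℕ} (hk : 1 ≤ k) (R : Fin k → Rect) {μ : Fin k → ProbabilityMeasure X}
    (hμ : ∀ i, IsLimit (R i) (μ i)) : ∀ᵐ ω ∂(Pm μ), ∀ S : Set ℂ,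
      dimH {u : Fin k → unitInterval | ∃ z ∈ S, ∀ i, (ω i).1 (u i) = z} =
        4 / 7 * dimH (S ∩ comm ω) ∧
      ∀ i, dimH {u | (ω i).1 u ∈ S ∩ comm ω} = 4 / 7 * dimH (S ∩ comm ω) := by
  have h : ∀ᵐ ω ∂(Pm μ), ∀ i, CovP (ω i).1 ∧
      ∀ E : Set unitInterval, dimH ((ω i).1 '' E) = 7 / 4 * dimH E := by
    rw [ae_all_iff]
    intro i
    exact (measurePreserving_eval (fun i => (μ i : Measure X)) i).quasiMeasurePreserving.ae
      (covP_ae (R i) (hμ i))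
  filter_upwards [h] with ω hω S
  refine ⟨coll_eq hk (f := fun i => (ω i).1) (fun i => (hω i).1) (fun i => (hω i).2) S,
    fun i => ?_⟩
  have e : (ω i).1 '' {u | (ω i).1 u ∈ S ∩ comm ω} = S ∩ comm ω := by
    apply image_preimage_eq_of_subset
    rintro z ⟨-, hz⟩
    exact mem_iInter.1 hz i
  have h4 := (hω i).2 {u | (ω i).1 u ∈ S ∩ comm ω}
  rw [e] at h4
  rw [h4, ← mul_assoc, e47, one_mul]

end Pool.Agent.Zk33.HG
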