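import Pool.Agent.Zk33.HG.Sim2
import Pool.Agent.Zk69.HG.Wk
import Pool.Agent.Zk77.HG.Fin

/-!
Common points near the end point: assembly.
-/

set_option autoImplicit false

namespace Pool.Agent.Zk33.HG

open H984N MeasureTheory Filter Topology Metric Set Pool.Agent.Zk33.HF
open scoped ENNReal NNReal

theorem stTh : StTh := fun _ R μ hμ _ hS _ _ _ ht hts hc h =>
  Pool.Agent.Zk77.HG.thick (Pool.Agent.Zk69.HG.stWk (Pool.Agent.Zk11.HG.stW stSS')) R μ hμ hS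
    ht hts hc h

theorem seven' {k : ℕ} (hk : 1 ≤ k) (hk7 : k ≤ 7) (R : Fin k → Rect)
    {μ : Fin k → ProbabilityMeasure X} (hμ : ∀ i, IsLimit (R i) (μ i)) :
    ∀ᵐ ω ∂(Pm μ), ∀ r : ℝ, 0 < r →
      ((⋂ i, (R i).D) ∩ ball 0 r ∩ comm ω).Nonempty ∧
      dimH ((⋂ i, (R i).D) ∩ ball 0 r ∩ comm ω) = ENNReal.ofReal (2 - (k : ℝ) / 4) :=
  seven_ne stTh hk hk7 R hμ

theorem sim_eq' {k : ℕ} (hk : 1 ≤ k) (R : Fin k → Rect)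
    {μ : Fin k → ProbabilityMeasure X} (hμ : ∀ i, IsLimit (R i) (μ i)) {S : Set ℂ}
    (hS : IsClosed S) {l : ℝ} (hl : 0 < l) (hl1 : l < 1) (hlS : ∀ z ∈ S, (l : ℂ) * z ∈ S)
    (hC : ∀ z ∈ S, 9 * |z.re| ≤ z.im) (hd : ENNReal.ofReal ((k : ℝ) / 4) < dimH S) :
    ∀ᵐ ω ∂(Pm μ), ∀ r : ℝ, 0 < r →
      ((S ∩ ⋂ i, (R i).D) ∩ ball 0 r ∩ comm ω).Nonempty ∧
      dimH ((S ∩ ⋂ i, (R i).D) ∩ ball 0 r ∩ comm ω) =
        dimH S - ENNReal.ofReal ((k : ℝ) / 4) :=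
  sim_eq stTh hk R hμ hS hl hl1 hlS hC hd

end Pool.Agent.Zk33.HG
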