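import Pool.Agent.Zk11.HG.Ex

/-!
Compact sets of positive content: the optimal dimension, with positive probability.
-/

set_option autoImplicit false

namespace Pool.Agent.Zk33.HG

open H984N MeasureTheory Filter Topology Metric Set Pool.Agent.H389R2.Dim
open Pool.Agent.Zk33.HF Pool.Agent.Zk17.HF
open scoped ENNReal NNReal

theorem content_exact {k : ℕ} (hk : 1 ≤ k) (R : Fin k → Rect) {K : Set ℂ} (hK : IsCompact K)
    (hD : ∀ i, K ⊆ (R i).D) {s m : ℝ} (hs : (k : ℝ) / 4 < s) (hm : 0 < m) :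
    ∃ p : ℝ, 0 < p ∧ ∃ c : ℝ → ℝ, (∀ t, 0 ≤ t → t < s - (k : ℝ) / 4 → 0 < c t) ∧
    ∀ μ : Fin k → ProbabilityMeasure X, (∀ i, IsLimit (R i) (μ i)) →
    ∀ S : Set ℂ, S ⊆ K → IsCompact S → Content s m S →
      (∀ t, 0 ≤ t → t < s - (k : ℝ) / 4 →
        IsClosed {ω : Fin k → X | Content t (c t) (S ∩ comm ω)} ∧
        p ≤ (Pm μ).real {ω | Content t (c t) (S ∩ comm ω)}) ∧
      ∃ 𝒢 : Set (Fin k → X), MeasurableSet 𝒢 ∧ p ≤ (Pm μ).real 𝒢 ∧ ∀ ω ∈ 𝒢,
        (S ∩ comm ω).Nonempty ∧ ENNReal.ofReal (s - (k : ℝ) / 4) ≤ dimH (S ∩ comm ω) := by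
  obtain ⟨a, C, ρ0, ha, hC, hρ0, hρ1, hB⟩ := bds_prod hk R hK hD
  have hk0 : (0 : ℝ) ≤ (k : ℝ) / 4 := by positivity
  obtain ⟨Rb, hRb⟩ := hK.isBounded.subset_closedBall 0
  have hRb' : K ⊆ closedBall 0 (max Rb 1) :=
    hRb.trans (closedBall_subset_closedBall (le_max_left _ _))
  have hRb0 : 0 < max Rb 1 := lt_of_lt_of_le one_pos (le_max_right Rb 1)
  set B : ℝ := 2 * (2 * max Rb 1 + 2) with hBdef
  have hB0 : 0 < B := by positivity
  set E0 : ℝ := KE s ((k : ℝ) / 4) B / m with hE0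
  have hE0p : 0 < E0 := div_pos (KE_pos hs hB0) hm
  set E1 : ℝ → ℝ := fun t => KE s ((k : ℝ) / 4 + t) B / m with hE1
  have hE1p : ∀ t, t < s - (k : ℝ) / 4 → 0 < E1 t := fun t ht =>
    div_pos (KE_pos (by linarith) hB0) hm
  set c : ℝ → ℝ := fun t => 2 ^ (-t) / (32 * C ^ 2 * E0 * E1 t / a ^ 4) with hcdef
  have hc : ∀ t, t < s - (k : ℝ) / 4 → 0 < c t := fun t ht => by
    have := hE1p t ht
    simp only [hcdef]
    positivity
  refine ⟨a ^ 2 / (8 * (C * E0)), by positivity, c, fun t _ ht => hc t ht, ?_⟩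
  intro μ hμ S hSK hSc hcon
  have hcl : ∀ t, IsClosed {ω : Fin k → X | Content t (c t) (S ∩ comm ω)} := by
    intro t
    have hcl := isClosed_content_of (t := t) (c := c t)
      (A := fun ω : Fin k → X => NS Gs 0 S ω) fun O hO => isOpen_NS_sub Gs_cont hSc hO
    simp only [NS_eq] at hcl
    exact hcl
  have hpr : ∀ t, 0 ≤ t → t < s - (k : ℝ) / 4 →
      a ^ 2 / (8 * (C * E0)) ≤ (Pm μ).real {ω | Content t (c t) (S ∩ comm ω)} := by
    intro t ht0 ht
    have key := content_prob (μ := Pm μ) (hB μ hμ) ha hC hE0p (hE1p t ht) hρ0 ht0 hSK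
      hSc (fun ρ h0 h1 => Pool.Agent.Zk11.HG.Ex.wt_content2 hm hk0 ht0
        (by linarith) hRb0 (hSK.trans hRb') hcon h0 (h1.trans hρ1))
    simp only [NS_eq] at key
    exact key
  refine ⟨fun t ht0 ht => ⟨hcl t, hpr t ht0 ht⟩, ?_⟩
  -- the exponents
  set t : ℕ → ℝ := fun n => (s - (k : ℝ) / 4) * (1 - 1 / ((n : ℝ) + 2)) with ht
  have hn2 : ∀ n : ℕ, 0 < 1 / ((n : ℝ) + 2) ∧ 1 / ((n : ℝ) + 2) < 1 := fun n => by
    have : (0 : ℝ) ≤ n := Nat.cast_nonneg n
    constructor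
    · positivity
    · rw [div_lt_one (by linarith)]
      linarith
  have ht0 : ∀ n, 0 < t n := fun n => by
    have := hn2 n
    exact mul_pos (by linarith) (by linarith)
  have ht2 : ∀ n, t n < s - (k : ℝ) / 4 := fun n => by
    have h1 := hn2 n
    have h2 : (s - (k : ℝ) / 4) * (1 - 1 / ((n : ℝ) + 2)) < (s - (k : ℝ) / 4) * 1 :=
      mul_lt_mul_of_pos_left (by linarith) (by linarith)
    simp only [ht]
    linarith
  have htm : Monotone t := by
    intro m n hmn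
    simp only [ht]
    refine mul_le_mul_of_nonneg_left ?_ (by linarith)
    have h1 : (m : ℝ) ≤ n := by exact_mod_cast hmn
    have h2 : 1 / ((n : ℝ) + 2) ≤ 1 / ((m : ℝ) + 2) :=
      one_div_le_one_div_of_le (by positivity) (by linarith)
    linarith
  have htlim : Tendsto t atTop (𝓝 (s - (k : ℝ) / 4)) := by
    have h1 : Tendsto (fun n : ℕ => 1 / ((n : ℝ) + 2)) atTop (𝓝 0) := by
      refine Tendsto.div_atTop tendsto_const_nhds ?_
      exact tendsto_atTop_add_const_right _ _ tendsto_natCast_atTop_atTop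
    have h2 := (tendsto_const_nhds (x := (1 : ℝ))).sub h1
    have h3 := h2.const_mul (s - (k : ℝ) / 4)
    rw [sub_zero, mul_one] at h3
    exact h3
  obtain ⟨h1, h2⟩ := Pool.Agent.Zk11.HG.Ex.limsup_real (μ := Pm μ)
    (fun n => (hcl (t n)).measurableSet) (fun n => hpr (t n) (ht0 n).le (ht2 n))
  refine ⟨_, h1, h2, fun ω hω => ?_⟩
  have hex : ∀ N, ∃ n, N ≤ n ∧ Content (t n) (c (t n)) (S ∩ comm ω) := by
    intro N
    have := mem_iInter.1 hω N
    simp only [mem_iUnion, Set.mem_Ici, exists_prop] at this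
    exact this
  have hcpt : IsCompact (S ∩ comm ω) :=
    hSc.inter_right (isClosed_iInter fun i => (isCompact_range (ω i).1.continuous).isClosed)
  constructor
  · obtain ⟨n, _, hn⟩ := hex 0
    exact nonempty_of_content (hc _ (ht2 n)) hn
  · refine le_of_tendsto' ((ENNReal.continuous_ofReal.tendsto _).comp htlim) fun N => ?_
    obtain ⟨n, hn, hn2⟩ := hex N
    exact (ENNReal.ofReal_le_ofReal (htm hn)).trans
      (le_dimH_of_content (ht0 n) (hc _ (ht2 n)) hcpt hn2)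

end Pool.Agent.Zk33.HG
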