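import Pool.Agent.Zk33.HG.HN

/-!
Eight curves have no common points in the domain; the common points of at most seven curves have
measure zero.
-/

set_option autoImplicit false

namespace Pool.Agent.Zk33.HG

open H984N MeasureTheory Filter Topology Metric Set Pool.Agent.Zk33.HF
open scoped ENNReal NNReal

theorem null_empty {S : Set ℂ} (h : Null 0 S) : S = ∅ := by
  by_contra hne
  apply h 1 one_pos
  intro s _ hcov
  have hs : s.Nonempty := by
    rw [Finset.nonempty_iff_ne_empty]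
    rintro rfl
    apply hne
    rw [← subset_empty_iff]
    refine hcov.trans ?_
    simp
  have h1 : ∑ p ∈ s, p.2 ^ (0:ℝ) = s.card := by
    simp
  rw [h1]
  have := Finset.card_pos.2 hs
  exact_mod_cast this

theorem isOpen_D (R : Rect) : IsOpen R.D := by
  have h1 : IsOpen {z : ℂ | -R.A < z.re} := isOpen_lt continuous_const Complex.continuous_re
  have h2 : IsOpen {z : ℂ | z.re < R.B} := isOpen_lt Complex.continuous_re continuous_const
  have h3 : IsOpen {z : ℂ | 0 < z.im} := isOpen_lt continuous_const Complex.continuous_im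
  have h4 : IsOpen {z : ℂ | z.im < R.H} := isOpen_lt Complex.continuous_im continuous_const
  exact h1.inter (h2.inter (h3.inter h4))

theorem ex_compact {k : ℕ} (R : Fin k → Rect) : ∃ Kn : ℕ → Set ℂ, (∀ n, IsCompact (Kn n)) ∧
    (∀ n i, Kn n ⊆ (R i).D) ∧ (⋂ i, (R i).D) = ⋃ n, Kn n := by
  have hop : IsOpen (⋂ i, (R i).D) := isOpen_iInter_of_finite fun i => isOpen_D (R i)
  obtain ⟨F, hF1, hF2, hF3, -⟩ := hop.exists_iUnion_isClosed
  refine ⟨fun n => F (n.unpair.1) ∩ closedBall 0 (n.unpair.2), fun n => ?_, fun n i => ?_, ?_⟩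
  · exact (isCompact_closedBall (0 : ℂ) _).inter_left (hF1 _)
  · exact inter_subset_left.trans ((hF2 _).trans (iInter_subset _ i))
  · rw [← hF3]
    apply Subset.antisymm
    · intro z hz
      obtain ⟨m, hm⟩ := mem_iUnion.1 hz
      obtain ⟨l, hl⟩ := exists_nat_ge ‖z‖
      refine mem_iUnion.2 ⟨Nat.pair m l, ?_⟩
      simp only [Nat.unpair_pair]
      refine ⟨hm, ?_⟩
      rw [mem_closedBall, dist_zero_right]
      exact hl
    · intro z hz
      obtain ⟨n, hn⟩ := mem_iUnion.1 hz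
      exact mem_iUnion.2 ⟨_, hn.1⟩

/-- The common points have measure zero. -/
theorem meas_zero (hc : StNc) {k : ℕ} (hk : 1 ≤ k) (hk7 : k ≤ 7) (R : Fin k → Rect)
    {μ : Fin k → ProbabilityMeasure X} (hμ : ∀ i, IsLimit (R i) (μ i)) :
    ∀ᵐ ω ∂(Pm μ), Measure.hausdorffMeasure (2 - (k : ℝ) / 4) ((⋂ i, (R i).D) ∩ comm ω) = 0 := by
  obtain ⟨Kn, h1, h2, h3⟩ := ex_compact R
  have h4 : ∀ᵐ ω ∂(Pm μ), ∀ n, Null (2 - (k : ℝ) / 4) (Kn n ∩ comm ω) :=
    ae_all_iff.2 fun n => hc k hk (by omega) R (Kn n) (h1 n) (h2 n) μ hμ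
  have hk' : (k : ℝ) ≤ 7 := by exact_mod_cast hk7
  filter_upwards [h4] with ω hω
  rw [h3, iUnion_inter]
  exact measure_iUnion_null fun n => haus_of_null (by linarith) (hω n)

/-- Eight curves have no common points in the domain. -/
theorem eight_empty (hc : StNc) {k : ℕ} (hk : k = 8) (R : Fin k → Rect)
    {μ : Fin k → ProbabilityMeasure X} (hμ : ∀ i, IsLimit (R i) (μ i)) :
    ∀ᵐ ω ∂(Pm μ), (⋂ i, (R i).D) ∩ comm ω = ∅ := by
  obtain ⟨Kn, h1, h2, h3⟩ := ex_compact R
  have h4 : ∀ᵐ ω ∂(Pm μ), ∀ n, Null (2 - (k : ℝ) / 4) (Kn n ∩ comm ω) :=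
    ae_all_iff.2 fun n => hc k (by omega) (by omega) R (Kn n) (h1 n) (h2 n) μ hμ
  filter_upwards [h4] with ω hω
  rw [h3, iUnion_inter, iUnion_eq_empty]
  intro n
  have h5 := hω n
  have h6 : (2 : ℝ) - (k : ℝ) / 4 = 0 := by
    rw [hk]
    norm_num
  rw [h6] at h5
  exact null_empty h5

end Pool.Agent.Zk33.HG
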