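import Mathlib

set_option autoImplicit false

namespace Pool.Agent.Zk33.HG

open MeasureTheory Filter Topology Metric Set
open scoped ENNReal NNReal

/-- Extension of a curve to the line. -/
noncomputable def gx (f : unitInterval → ℂ) (x : ℝ) : ℂ := f (projIcc 0 1 zero_le_one x)

theorem proj_sub {a b : ℝ} (hab : a ≤ b) :
    ((projIcc (0:ℝ) 1 zero_le_one b : unitInterval) : ℝ) -
      (projIcc (0:ℝ) 1 zero_le_one a : unitInterval) ≤ b - a := by
  rw [coe_projIcc, coe_projIcc]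
  rcases le_total 1 b with h1 | h1 <;> rcases le_total 1 a with h2 | h2 <;>
    simp only [h1, h2, min_eq_left, min_eq_right]
  all_goals
    rcases le_total 0 a with h3 | h3 <;> rcases le_total 0 b with h4 | h4 <;>
      simp only [h3, h4, max_eq_left, max_eq_right, zero_le_one] <;> linarith

theorem g_arc {f : unitInterval → ℂ} {T C : ℝ} (hT : 0 < T) (hC : 0 < C)
    (h2 : ∀ s t : unitInterval, s ≤ t → Measure.hausdorffMeasure (7/4 : ℝ) (f '' Set.Icc s t) ≤
      ENNReal.ofReal (C * (T * ((t : ℝ) - s)))) {a b : ℝ} (hab : a ≤ b) :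
    Measure.hausdorffMeasure (7/4 : ℝ) (gx f '' Icc a b) ≤ ENNReal.ofReal (C * T * (b - a)) := by
  have hm : Monotone (projIcc (0:ℝ) 1 zero_le_one) := monotone_projIcc _
  have hsub : gx f '' Icc a b ⊆ f '' Icc (projIcc (0:ℝ) 1 zero_le_one a)
      (projIcc (0:ℝ) 1 zero_le_one b) := by
    rintro _ ⟨x, ⟨hx1, hx2⟩, rfl⟩
    exact ⟨_, ⟨hm hx1, hm hx2⟩, rfl⟩
  refine (measure_mono hsub).trans ((h2 _ _ (hm hab)).trans (ENNReal.ofReal_le_ofReal ?_))
  have h3 := proj_sub hab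
  rw [mul_assoc]
  exact mul_le_mul_of_nonneg_left (mul_le_mul_of_nonneg_left h3 hT.le) hC.le

/-- The image of a null set. -/
theorem g_null {f : unitInterval → ℂ} {T C : ℝ} (hT : 0 < T) (hC : 0 < C)
    (h2 : ∀ s t : unitInterval, s ≤ t → Measure.hausdorffMeasure (7/4 : ℝ) (f '' Set.Icc s t) ≤
      ENNReal.ofReal (C * (T * ((t : ℝ) - s)))) {A : Set ℝ} (hA : volume A = 0) :
    Measure.hausdorffMeasure (7/4 : ℝ) (gx f '' A) = 0 := by
  rw [← hausdorffMeasure_real, Measure.hausdorffMeasure_apply] at hA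
  have h3 : (⨅ (u : ℕ → Set ℝ) (_ : A ⊆ ⋃ n, u n) (_ : ∀ n, ediam (u n) ≤ 1),
      ∑' n, ⨆ _ : (u n).Nonempty, ediam (u n) ^ (1:ℝ)) = 0 := by
    have := ENNReal.iSup_eq_zero.mp hA 1
    simpa using this
  have key : ∀ ε : ℝ≥0∞, 0 < ε → Measure.hausdorffMeasure (7/4 : ℝ) (gx f '' A) ≤
      ENNReal.ofReal (2 * (C * T)) * ε := by
    intro ε hε
    have h4 : (⨅ (u : ℕ → Set ℝ) (_ : A ⊆ ⋃ n, u n) (_ : ∀ n, ediam (u n) ≤ 1),
        ∑' n, ⨆ _ : (u n).Nonempty, ediam (u n) ^ (1:ℝ)) < ε := by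
      rw [h3]; exact hε
    simp only [iInf_lt_iff] at h4
    obtain ⟨u, hu, hu1, hsum⟩ := h4
    have h5 : gx f '' A ⊆ ⋃ n, gx f '' u n := by
      rw [← image_iUnion]
      exact image_mono hu
    refine (measure_mono h5).trans ((measure_iUnion_le _).trans ?_)
    have h6 : ∀ n, Measure.hausdorffMeasure (7/4 : ℝ) (gx f '' u n) ≤
        ENNReal.ofReal (2 * (C * T)) * ⨆ _ : (u n).Nonempty, ediam (u n) ^ (1:ℝ) := by
      intro n
      rcases (u n).eq_empty_or_nonempty with he | hne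
      · rw [he]
        simp
      · simp only [hne, iSup_pos, ENNReal.rpow_one]
        obtain ⟨x, hx⟩ := hne
        have hfin : ediam (u n) ≠ ∞ := ne_top_of_le_ne_top ENNReal.one_ne_top (hu1 n)
        set d : ℝ := (ediam (u n)).toReal with hd
        have hd0 : 0 ≤ d := ENNReal.toReal_nonneg
        have hsub : u n ⊆ Icc (x - d) (x + d) := by
          intro y hy
          have h7 : edist y x ≤ ediam (u n) := edist_le_ediam_of_mem hy hx
          rw [edist_dist] at h7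
          have h8 := (ENNReal.ofReal_le_iff_le_toReal hfin).mp h7
          rw [Real.dist_eq, abs_le] at h8
          exact ⟨by linarith [h8.1], by linarith [h8.2]⟩
        refine (measure_mono (image_mono hsub)).trans
          ((g_arc hT hC h2 (by linarith)).trans (le_of_eq ?_))
        rw [show C * T * (x + d - (x - d)) = 2 * (C * T) * d by ring,
          ENNReal.ofReal_mul (by positivity), hd, ENNReal.ofReal_toReal hfin]
    refine (ENNReal.tsum_le_tsum h6).trans ?_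
    rw [ENNReal.tsum_mul_left]
    exact mul_le_mul_right hsum.le _
  refine le_antisymm ?_ (zero_le)
  by_contra hcon
  rw [not_le] at hcon
  have hK : ENNReal.ofReal (2 * (C * T)) ≠ 0 := by
    rw [← pos_iff_ne_zero, ENNReal.ofReal_pos]
    positivity
  have hlim : Tendsto (fun n : ℕ => ENNReal.ofReal (2 * (C * T)) * ENNReal.ofReal (1 / ((n:ℝ) + 1)))
      atTop (𝓝 0) := by
    have h1 : Tendsto (fun n : ℕ => ENNReal.ofReal (1 / ((n:ℝ) + 1))) atTop (𝓝 0) := by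
      have := ENNReal.tendsto_ofReal (tendsto_one_div_add_atTop_nhds_zero_nat (𝕜 := ℝ))
      rwa [ENNReal.ofReal_zero] at this
    have h2 := ENNReal.Tendsto.const_mul h1 (a := ENNReal.ofReal (2 * (C * T)))
      (Or.inr ENNReal.ofReal_ne_top)
    rwa [mul_zero] at h2
  have h8 := ge_of_tendsto' hlim (fun n => key (ENNReal.ofReal (1 / ((n:ℝ) + 1)))
    (ENNReal.ofReal_pos.2 (by positivity)))
  exact absurd (hcon.trans_le h8) (lt_irrefl _)

theorem gx_of_mem (f : unitInterval → ℂ) {y : ℝ} (hy : y ∈ Icc (0:ℝ) 1) : gx f y = f ⟨y, hy⟩ := by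
  unfold gx
  rw [projIcc_of_mem _ hy]

/-- One value of `ε`. -/
theorem haus_eps {f : unitInterval → ℂ} {T C : ℝ} (hT : 0 < T) (hC : 0 < C) {ε : ℝ} (hε : 0 < ε)
    (h1 : ∀ᵐ t : unitInterval, ∃ᶠ h : ℝ in 𝓝[>] 0, ∀ s : unitInterval,
      T * |(s : ℝ) - t| ≤ h → dist (f s) (f t) ≤ ε * h ^ (4/7 : ℝ))
    (h2 : ∀ s t : unitInterval, s ≤ t → Measure.hausdorffMeasure (7/4 : ℝ) (f '' Set.Icc s t) ≤
      ENNReal.ofReal (C * (T * ((t : ℝ) - s)))) :
    Measure.hausdorffMeasure (7/4 : ℝ) (Set.range f) ≤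
      ENNReal.ofReal ((2 * ε) ^ (7/4 : ℝ) * T * 3) := by
  classical
  set Bad : Set unitInterval := {t | ¬ ∃ᶠ h : ℝ in 𝓝[>] 0, ∀ s : unitInterval,
      T * |(s : ℝ) - t| ≤ h → dist (f s) (f t) ≤ ε * h ^ (4/7 : ℝ)} with hBad
  have hBad0 : volume Bad = 0 := ae_iff.1 h1
  set N : Set ℝ := (fun t : unitInterval => (t : ℝ)) '' Bad with hN
  have hN0 : volume N = 0 := by
    rw [hN, ← unitInterval.volume_apply]
    exact hBad0
  set G : Set ℝ := Icc 0 1 \ N with hG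
  set Rad : ℝ → Set ℝ := fun x => {r | 0 < r ∧ ∀ y ∈ Icc (0:ℝ) 1, |y - x| ≤ r →
    dist (gx f y) (gx f x) ≤ ε * (T * r) ^ (4/7 : ℝ)} with hRad
  have hRadne : ∀ x ∈ G, ∀ δ > 0, (Rad x ∩ Ioo 0 δ).Nonempty := by
    rintro x ⟨hx, hxN⟩ δ hδ
    have hgood : ∃ᶠ h : ℝ in 𝓝[>] 0, ∀ s : unitInterval,
        T * |(s : ℝ) - x| ≤ h → dist (f s) (f ⟨x, hx⟩) ≤ ε * h ^ (4/7 : ℝ) := by
      by_contra hcon
      exact hxN ⟨⟨x, hx⟩, hcon, rfl⟩
    have hev : ∀ᶠ h : ℝ in 𝓝[>] 0, 0 < h ∧ h < T * δ :=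
      Filter.Eventually.and self_mem_nhdsWithin
        (nhdsWithin_le_nhds (gt_mem_nhds (by positivity)))
    obtain ⟨h, hh, h0, hδ'⟩ := (hgood.and_eventually hev).exists
    have e : T * (h / T) = h := by field_simp
    refine ⟨h / T, ⟨by positivity, ?_⟩, by positivity, ?_⟩
    · intro y hy hyx
      rw [gx_of_mem f hy, gx_of_mem f hx, e]
      refine hh ⟨y, hy⟩ ?_
      show T * |y - x| ≤ h
      calc T * |y - x| ≤ T * (h / T) := mul_le_mul_of_nonneg_left hyx hT.le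
        _ = h := e
    · rw [div_lt_iff₀ hT]
      linarith
  have hbes : ∀ n : ℕ, ∃ (t : Set ℝ) (r : ℝ → ℝ), t.Countable ∧ t ⊆ G ∧
      (∀ x ∈ t, r x ∈ Rad x ∩ Ioo 0 (1 / ((n : ℝ) + 1))) ∧
      volume (G \ ⋃ x ∈ t, closedBall x (r x)) = 0 ∧
      t.PairwiseDisjoint fun x => closedBall x (r x) := fun n =>
    Besicovitch.exists_disjoint_closedBall_covering_ae volume Rad G hRadne
      (fun _ => 1 / ((n : ℝ) + 1)) (fun _ _ => by positivity)
  choose tn rn htc htG hr hvol hdis using hbes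
  set NN : Set ℝ := N ∪ ⋃ n, G \ ⋃ x ∈ tn n, closedBall x (rn n x) with hNN
  have hNN0 : volume NN = 0 := by
    rw [hNN]
    exact measure_union_null hN0 (measure_iUnion_null hvol)
  set E : Set ℂ := gx f '' (Icc 0 1 \ NN) with hE
  have hrange : Set.range f ⊆ E ∪ gx f '' NN := by
    rintro _ ⟨t, rfl⟩
    have e : f t = gx f t := by
      rw [gx_of_mem f t.2]
    rw [e]
    by_cases h : (t : ℝ) ∈ NN
    · exact Or.inr ⟨_, h, rfl⟩
    · exact Or.inl ⟨_, ⟨t.2, h⟩, rfl⟩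
  have hE1 : Measure.hausdorffMeasure (7/4 : ℝ) (Set.range f) ≤
      Measure.hausdorffMeasure (7/4 : ℝ) E := by
    refine (measure_mono hrange).trans ((measure_union_le _ _).trans ?_)
    rw [g_null hT hC h2 hNN0, add_zero]
  refine hE1.trans ?_
  have hcount : ∀ n : ℕ, Countable {x // x ∈ tn n} := fun n => (htc n).to_subtype
  set U : ∀ n : ℕ, {x // x ∈ tn n} → Set ℂ :=
    fun n i => gx f '' (closedBall i.1 (rn n i.1) ∩ Icc 0 1) with hU
  have hdiam : ∀ n : ℕ, ∀ i : {x // x ∈ tn n},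
      ediam (U n i) ≤ ENNReal.ofReal (2 * ε * (T * rn n i.1) ^ (4/7 : ℝ)) := by
    intro n i
    have hri := (hr n i.1 i.2).1.2
    refine Metric.ediam_le_of_forall_dist_le ?_
    rintro _ ⟨y, ⟨hy1, hy2⟩, rfl⟩ _ ⟨z, ⟨hz1, hz2⟩, rfl⟩
    rw [mem_closedBall, Real.dist_eq] at hy1 hz1
    have a1 := hri y hy2 hy1
    have a2 := hri z hz2 hz1
    have a3 := dist_triangle_right (gx f y) (gx f z) (gx f i.1)
    linarith
  have hcov : ∀ n : ℕ, E ⊆ ⋃ i, U n i := by
    rintro n _ ⟨y, ⟨hy, hyN⟩, rfl⟩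
    rw [hNN, mem_union, not_or] at hyN
    have hyG : y ∈ G := ⟨hy, hyN.1⟩
    have h3 : y ∈ ⋃ x ∈ tn n, closedBall x (rn n x) := by
      by_contra hcon
      exact hyN.2 (mem_iUnion.2 ⟨n, hyG, hcon⟩)
    obtain ⟨x, hx, hyx⟩ := mem_iUnion₂.1 h3
    exact mem_iUnion.2 ⟨⟨x, hx⟩, y, ⟨hyx, hy⟩, rfl⟩
  have hbound : ∀ n : ℕ, ∀ i : {x // x ∈ tn n},
      ediam (U n i) ≤ ENNReal.ofReal (2 * ε * (T * (1 / ((n : ℝ) + 1))) ^ (4/7 : ℝ)) := by
    intro n i
    refine (hdiam n i).trans (ENNReal.ofReal_le_ofReal ?_)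
    have h3 := (hr n i.1 i.2).2
    have h4 : 0 < rn n i.1 := h3.1
    refine mul_le_mul_of_nonneg_left (Real.rpow_le_rpow (by positivity) ?_ (by norm_num))
      (by positivity)
    exact mul_le_mul_of_nonneg_left h3.2.le hT.le
  have hrlim : Tendsto (fun n : ℕ => ENNReal.ofReal
      (2 * ε * (T * (1 / ((n : ℝ) + 1))) ^ (4/7 : ℝ))) atTop (𝓝 0) := by
    have h3 : Tendsto (fun n : ℕ => T * (1 / ((n : ℝ) + 1))) atTop (𝓝 0) := by
      have := (tendsto_one_div_add_atTop_nhds_zero_nat (𝕜 := ℝ)).const_mul T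
      rwa [mul_zero] at this
    have h4 := (h3.rpow_const (p := (4/7 : ℝ)) (Or.inr (by norm_num))).const_mul (2 * ε)
    rw [Real.zero_rpow (by norm_num), mul_zero] at h4
    have h5 := ENNReal.tendsto_ofReal h4
    rwa [ENNReal.ofReal_zero] at h5
  have hle := Measure.hausdorffMeasure_le_liminf_tsum (X := ℂ)
    (ι := fun n : ℕ => {x // x ∈ tn n}) (7/4 : ℝ) E (l := atTop) _ hrlim U
    (Eventually.of_forall hbound) (Eventually.of_forall hcov)
  have hsum : ∀ n : ℕ, ∑' i : {x // x ∈ tn n}, ediam (U n i) ^ (7/4 : ℝ) ≤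
      ENNReal.ofReal ((2 * ε) ^ (7/4 : ℝ) * T * 3) := by
    intro n
    have h3 : ∀ i : {x // x ∈ tn n}, ediam (U n i) ^ (7/4 : ℝ) ≤
        ENNReal.ofReal ((2 * ε) ^ (7/4 : ℝ) * T) * volume (closedBall i.1 (rn n i.1)) := by
      intro i
      have h4 : 0 < rn n i.1 := (hr n i.1 i.2).2.1
      calc ediam (U n i) ^ (7/4 : ℝ)
          ≤ ENNReal.ofReal (2 * ε * (T * rn n i.1) ^ (4/7 : ℝ)) ^ (7/4 : ℝ) :=
            ENNReal.rpow_le_rpow (hdiam n i) (by norm_num)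
        _ = ENNReal.ofReal ((2 * ε) ^ (7/4 : ℝ) * (T * rn n i.1)) := by
            rw [ENNReal.ofReal_rpow_of_nonneg (by positivity) (by norm_num),
              Real.mul_rpow (by positivity) (by positivity), ← Real.rpow_mul (by positivity)]
            norm_num
        _ ≤ ENNReal.ofReal ((2 * ε) ^ (7/4 : ℝ) * T * (2 * rn n i.1)) := by
            apply ENNReal.ofReal_le_ofReal
            have : 0 ≤ (2 * ε) ^ (7/4 : ℝ) * T * rn n i.1 := by positivity
            nlinarith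
        _ = _ := by
            rw [ENNReal.ofReal_mul (by positivity), Real.volume_closedBall]
    refine (ENNReal.tsum_le_tsum h3).trans ?_
    rw [ENNReal.tsum_mul_left, ← measure_biUnion (htc n) (hdis n)
      (fun x _ => measurableSet_closedBall)]
    have h5 : (⋃ x ∈ tn n, closedBall x (rn n x)) ⊆ Icc (-1 : ℝ) 2 := by
      intro y hy
      obtain ⟨x, hx, hyx⟩ := mem_iUnion₂.1 hy
      have hxG := (htG n hx).1
      have h6 := (hr n x hx).2.2
      have h7 : 1 / ((n : ℝ) + 1) ≤ 1 := by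
        rw [div_le_one (by positivity)]
        have : (0:ℝ) ≤ n := Nat.cast_nonneg n
        linarith
      rw [mem_closedBall, Real.dist_eq, abs_le] at hyx
      exact ⟨by linarith [hxG.1, hyx.1], by linarith [hxG.2, hyx.2]⟩
    have h6 : volume (⋃ x ∈ tn n, closedBall x (rn n x)) ≤ ENNReal.ofReal 3 := by
      refine (measure_mono h5).trans ?_
      rw [Real.volume_Icc]
      norm_num
    refine (mul_le_mul_right h6 _).trans (le_of_eq ?_)
    rw [← ENNReal.ofReal_mul (by positivity)]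
  refine hle.trans ?_
  refine (liminf_le_liminf (Eventually.of_forall hsum)).trans ?_
  exact (liminf_const _).le

theorem haus_zero {f : unitInterval → ℂ} {T C : ℝ} (hT : 0 < T) (hC : 0 < C)
    (h1 : ∀ ε : ℝ, 0 < ε → ∀ᵐ t : unitInterval, ∃ᶠ h : ℝ in 𝓝[>] 0, ∀ s : unitInterval,
      T * |(s : ℝ) - t| ≤ h → dist (f s) (f t) ≤ ε * h ^ (4/7 : ℝ))
    (h2 : ∀ s t : unitInterval, s ≤ t → Measure.hausdorffMeasure (7/4 : ℝ) (f '' Set.Icc s t) ≤
      ENNReal.ofReal (C * (T * ((t : ℝ) - s)))) :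
    Measure.hausdorffMeasure (7/4 : ℝ) (Set.range f) = 0 := by
  have hlim : Tendsto (fun n : ℕ => ENNReal.ofReal
      ((2 * (1 / ((n : ℝ) + 1))) ^ (7/4 : ℝ) * T * 3)) atTop (𝓝 0) := by
    have h3 : Tendsto (fun n : ℕ => 2 * (1 / ((n : ℝ) + 1))) atTop (𝓝 0) := by
      have := (tendsto_one_div_add_atTop_nhds_zero_nat (𝕜 := ℝ)).const_mul 2
      rwa [mul_zero] at this
    have h4 := ((h3.rpow_const (p := (7/4 : ℝ)) (Or.inr (by norm_num))).mul_const T).mul_const 3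
    rw [Real.zero_rpow (by norm_num), zero_mul, zero_mul] at h4
    have h5 := ENNReal.tendsto_ofReal h4
    rwa [ENNReal.ofReal_zero] at h5
  have h8 := ge_of_tendsto' hlim (fun n => haus_eps hT hC (ε := 1 / ((n : ℝ) + 1))
    (by positivity) (h1 _ (by positivity)) h2)
  exact le_antisymm h8 (zero_le)

end Pool.Agent.Zk33.HG
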