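import Pool.Agent.Zk33.HG.NullDefs
import Pool.Agent.Results.MP_fe58d8_pr.ChungLaw
import Pool.Agent.Results.MP_fe58d8_pr.ArcContent

/-!
The trace of the limits has measure zero in dimension `7/4`.
-/

set_option autoImplicit false

namespace Pool.Agent.Zk33.HG

open H984N MeasureTheory Filter Topology Metric Set Pool.Agent.Zk33.HF
open Pool.Agent.Results.MP_fe58d8_pr
open scoped ENNReal NNReal

theorem ll_lim : Tendsto ChungLaw.ll (𝓝[>] 0) atTop := by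
  have h1 : Tendsto (fun x : ℝ => 1 / x) (𝓝[>] 0) atTop := by
    simp only [one_div]
    exact tendsto_inv_nhdsGT_zero
  have h2 := Real.tendsto_log_atTop.comp (Real.tendsto_log_atTop.comp h1)
  exact tendsto_atTop_mono (fun x => le_max_right _ _) h2

theorem chi_small {C ε : ℝ} (hC : 0 < C) (hε : 0 < ε) :
    ∀ᶠ h : ℝ in 𝓝[>] 0, C * ChungLaw.chi h ≤ ε * h ^ (4/7 : ℝ) := by
  have h1 : Tendsto (fun h : ℝ => ChungLaw.ll h ^ (1/14 : ℝ)) (𝓝[>] 0) atTop :=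
    (tendsto_rpow_atTop (by norm_num)).comp ll_lim
  filter_upwards [h1.eventually_ge_atTop (C / ε), self_mem_nhdsWithin] with h hh hpos
  have hpos' : 0 < h := hpos
  have h2 : 0 < C / ε := by positivity
  have h3 : 0 < ChungLaw.ll h ^ (1/14 : ℝ) := h2.trans_le hh
  have h4 : 0 < h ^ (4/7 : ℝ) := Real.rpow_pos_of_pos hpos' _
  unfold ChungLaw.chi
  rw [mul_div_assoc', div_le_iff₀ h3]
  rw [div_le_iff₀ hε] at hh
  calc C * h ^ (4/7 : ℝ) ≤ (ChungLaw.ll h ^ (1/14 : ℝ) * ε) * h ^ (4/7 : ℝ) :=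
        mul_le_mul_of_nonneg_right hh h4.le
    _ = ε * h ^ (4/7 : ℝ) * ChungLaw.ll h ^ (1/14 : ℝ) := by ring

theorem chung_conv {f : unitInterval → ℂ} {T C : ℝ} (hC : 0 < C)
    (h : ∀ᵐ t : unitInterval, ∃ᶠ h : ℝ in 𝓝[>] 0, ∀ s : unitInterval, T * |(s : ℝ) - t| ≤ h →
          dist (f s) (f t) ≤ C * ChungLaw.chi h) :
    ∀ ε : ℝ, 0 < ε → ∀ᵐ t : unitInterval, ∃ᶠ h : ℝ in 𝓝[>] 0, ∀ s : unitInterval,
      T * |(s : ℝ) - t| ≤ h → dist (f s) (f t) ≤ ε * h ^ (4/7 : ℝ) := by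
  intro ε hε
  filter_upwards [h] with t ht
  refine (ht.and_eventually (chi_small hC hε)).mono ?_
  rintro x ⟨h1, h2⟩ s hs
  exact (h1 s hs).trans h2

/-- The deterministic statement. -/
def StHz : Prop := ∀ (f : unitInterval → ℂ), Continuous f → ∀ T C : ℝ, 0 < T → 0 < C →
  (∀ ε : ℝ, 0 < ε → ∀ᵐ t : unitInterval, ∃ᶠ h : ℝ in 𝓝[>] 0, ∀ s : unitInterval,
    T * |(s : ℝ) - t| ≤ h → dist (f s) (f t) ≤ ε * h ^ (4/7 : ℝ)) →
  (∀ s t : unitInterval, s ≤ t → Measure.hausdorffMeasure (7/4 : ℝ) (f '' Set.Icc s t) ≤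
    ENNReal.ofReal (C * (T * ((t : ℝ) - s)))) →
  Measure.hausdorffMeasure (7/4 : ℝ) (Set.range f) = 0

theorem trace_null (hz : StHz) (R : Rect) {μ : ProbabilityMeasure X} (hμ : IsLimit R μ) :
    ∀ᵐ p ∂(μ : Measure X), Measure.hausdorffMeasure (7/4 : ℝ) (Set.range p.1) = 0 := by
  obtain ⟨c1, C1, hc1, hC1, h1⟩ := ChungLaw.result
  obtain ⟨c2, C2, hc2, hC2, h2⟩ := ArcContent.result
  obtain ⟨δ, hδ, hlim, hlaw⟩ := hμ
  filter_upwards [(h1 R).2 δ hδ hlim μ hlaw, (h2 R).2 δ hδ hlim μ hlaw] with p hp1 hp2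
  obtain ⟨hT, hch⟩ := hp1
  obtain ⟨-, -, harc⟩ := hp2
  refine hz p.1 p.1.continuous p.2 C2 hT hC2 (chung_conv hC1 ?_) harc
  filter_upwards [hch] with t ht
  exact ht.2

end Pool.Agent.Zk33.HG
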