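import Pool.Agent.Zk33.HG.All
import Pool.Agent.Zk33.HG.Eight
import Pool.Agent.Zk33.HG.N0
import Pool.Agent.Zk33.HG.Hz
import Pool.Agent.Zk33.HG.CE
import Pool.Agent.Zk33.HG.NH
import Pool.Agent.Zk11.HG.N1
import Pool.Agent.Zk11.HG.Ex
import Pool.Agent.Zk69.HG.Nk

/-!
Measure zero, and eight curves: assembly.
-/

set_option autoImplicit false

namespace Pool.Agent.Zk33.HG

open H984N MeasureTheory Filter Topology Metric Set Pool.Agent.Zk33.HF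
open scoped ENNReal NNReal

theorem stHz : StHz := fun _ _ _ _ hT hC h1 h2 => haus_zero hT hC h1 h2

theorem stN0 : StN0 := by
  intro R μ hμ
  filter_upwards [trace_null stHz R hμ] with ω hω
  exact null_of_haus (by norm_num) (isCompact_range ω.1.continuous) hω

theorem stNc' : StNc := Pool.Agent.Zk69.HG.stNc Pool.Agent.Zk11.HG.stN1 stN0

theorem meas_zero' {k : ℕ} (hk : 1 ≤ k) (hk7 : k ≤ 7) (R : Fin k → Rect)
    {μ : Fin k → ProbabilityMeasure X} (hμ : ∀ i, IsLimit (R i) (μ i)) :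
    ∀ᵐ ω ∂(Pm μ), Measure.hausdorffMeasure (2 - (k : ℝ) / 4) ((⋂ i, (R i).D) ∩ comm ω) = 0 :=
  meas_zero stNc' hk hk7 R hμ

theorem eight' {k : ℕ} (hk : 1 ≤ k) (hk8 : 8 ≤ k) (R : Fin k → Rect)
    {μ : Fin k → ProbabilityMeasure X} (hμ : ∀ i, IsLimit (R i) (μ i)) :
    ∀ᵐ ω ∂(Pm μ), (⋂ i, (R i).D) ∩ comm ω = ∅ := by
  rcases hk8.eq_or_lt with h8 | h8
  · exact eight_empty stNc' h8.symm R hμ
  · have h1 := dim_up hk R hμ (S := ⋂ i, (R i).D) (fun i => iInter_subset _ i)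
    have h2 : dimH (⋂ i, (R i).D) < ENNReal.ofReal ((k : ℝ) / 4) := by
      refine (dimD R).trans_lt ?_
      rw [show (2 : ℝ≥0∞) = ENNReal.ofReal 2 by simp]
      refine (ENNReal.ofReal_lt_ofReal_iff (by positivity)).2 ?_
      have : (9 : ℝ) ≤ k := by exact_mod_cast h8
      linarith
    filter_upwards [h1] with ω hω
    exact hω.2 h2

/-- Compact sets of measure zero. -/
theorem null_set {k : ℕ} (hk : 1 ≤ k) (R : Fin k → Rect)
    {μ : Fin k → ProbabilityMeasure X} (hμ : ∀ i, IsLimit (R i) (μ i)) {S : Set ℂ}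
    (hS : IsCompact S) (hD : ∀ i, S ⊆ (R i).D) {s : ℝ} (hs : (k : ℝ) / 4 ≤ s)
    (h0 : Measure.hausdorffMeasure s S = 0) :
    ∀ᵐ ω ∂(Pm μ), Measure.hausdorffMeasure (s - (k : ℝ) / 4) (S ∩ comm ω) = 0 := by
  have hk1 : (1 : ℝ) ≤ k := by exact_mod_cast hk
  have h1 := Pool.Agent.Zk69.HG.stNk Pool.Agent.Zk11.HG.stN1 k R S hS hD μ hμ S Subset.rfl hS s hs
    (null_of_haus (by linarith) hS h0)
  filter_upwards [h1] with ω hω
  rcases hs.eq_or_lt with h2 | h2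
  · have h3 : s - (k : ℝ) / 4 = 0 := by linarith
    rw [h3] at hω
    rw [null_empty hω, measure_empty]
  · exact haus_of_null (by linarith) hω

/-- Open sets: the exact dimension. -/
theorem open_eq' {k : ℕ} (hk : 1 ≤ k) (hk7 : k ≤ 7) (R : Fin k → Rect) {U : Set ℂ}
    (hU : IsOpen U) (hne : U.Nonempty) (hUD : ∀ i, U ⊆ (R i).D) : ∃ p : ℝ, 0 < p ∧
    ∀ μ : Fin k → ProbabilityMeasure X, (∀ i, IsLimit (R i) (μ i)) →
    ∃ 𝒢 : Set (Fin k → X), MeasurableSet 𝒢 ∧ p ≤ (Pm μ).real 𝒢 ∧ ∀ ω ∈ 𝒢,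
      (U ∩ comm ω).Nonempty ∧ dimH (U ∩ comm ω) = ENNReal.ofReal (2 - (k : ℝ) / 4) := by
  obtain ⟨p, hp, h⟩ := Pool.Agent.Zk11.HG.Ex.open_exact hk hk7 R hU hne hUD
  refine ⟨p, hp, fun μ hμ => ?_⟩
  obtain ⟨𝒢, hm, hpr, hG⟩ := h μ hμ
  have h1 : ∀ᵐ ω ∂(Pm μ), dimH (U ∩ comm ω) ≤ ENNReal.ofReal (2 - (k : ℝ) / 4) := by
    filter_upwards [dim_up hk R hμ hUD] with ω hω
    refine hω.1.trans ?_
    rw [ENNReal.ofReal_sub _ (by positivity)]
    refine tsub_le_tsub_right ?_ _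
    refine (dimH_mono (subset_iInter hUD)).trans ((dimD R).trans ?_)
    simp
  have h2 : Pm μ {ω | ¬ (dimH (U ∩ comm ω) ≤ ENNReal.ofReal (2 - (k : ℝ) / 4))} = 0 := ae_iff.1 h1
  refine ⟨𝒢 \ toMeasurable (Pm μ) {ω | ¬ (dimH (U ∩ comm ω) ≤ ENNReal.ofReal (2 - (k : ℝ) / 4))},
    hm.diff (measurableSet_toMeasurable _ _), ?_, ?_⟩
  · rw [measureReal_def, measure_sdiff_null (by rw [measure_toMeasurable]; exact h2)]
    exact hpr
  · rintro ω ⟨hω1, hω2⟩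
    refine ⟨(hG ω hω1).1, le_antisymm ?_ (hG ω hω1).2⟩
    by_contra hcon
    exact hω2 (subset_toMeasurable _ _ hcon)

end Pool.Agent.Zk33.HG
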