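import Pool.Agent.H443R3.UD.Unif

/-!
Collision times of several curves: covers of the times at which a curve is in a small disc.
-/

set_option autoImplicit false

namespace Pool.Agent.Zk33.HG

open MeasureTheory Set Filter Topology Metric
open scoped ENNReal NNReal
open H443U.Unif (cell num)

/-- The times at which the curve is in a disc of radius `d` are covered by few intervals of length
`d ^ (7/4)`. -/
def CovP (f : unitInterval → ℂ) : Prop := ∀ η : ℝ, 0 < η → ∃ C : ℝ, 0 < C ∧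
  ∀ (z : ℂ) (d : ℝ), 0 < d → d ≤ 1 → ∃ (M : ℕ) (J : Finset ℕ), 1 / (M : ℝ) ≤ d ^ (7/4 : ℝ) ∧
    (J.card : ℝ) ≤ C * d ^ (-η) ∧ ∀ u, dist (f u) z < d → ∃ j ∈ J, u ∈ cell M j

theorem covP_of {f : unitInterval → ℂ}
    (h1 : ∀ β : ℝ, 0 < β → β < 4/7 → ∃ Λ : ℝ, ∀ s t : unitInterval,
      dist (f s) (f t) ≤ Λ * |(s : ℝ) - t| ^ β)
    (h2 : ∀ α : ℝ, 0 < α → α < 7/4 → ∃ Λ : ℝ, ∀ (z : ℂ) (r : ℝ), 0 < r →
      volume {s : unitInterval | dist (f s) z < r} ≤ ENNReal.ofReal (Λ * r ^ α)) : CovP f := by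
  classical
  intro η hη
  obtain ⟨β, hβ⟩ : ∃ β : ℝ, β = 1 / (7/4 + η / 2) := ⟨_, rfl⟩
  have hβ0 : 0 < β := by rw [hβ]; positivity
  have hβ1 : β < 4/7 := by
    rw [hβ, div_lt_div_iff₀ (by positivity) (by norm_num)]
    linarith
  have hβi : 1 / β = 7/4 + η / 2 := by rw [hβ]; simp
  obtain ⟨a, ha⟩ : ∃ a : ℝ, a = 7/4 - min (η / 2) 1 := ⟨_, rfl⟩
  have ha0 : 0 < a := by
    have := min_le_right (η / 2) 1
    linarith
  have hmin : 0 < min (η / 2) 1 := lt_min (by positivity) one_pos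
  have ha1 : a < 7/4 := by linarith
  have ha2 : -η ≤ a - 1 / β := by
    have := min_le_left (η / 2) 1
    linarith
  obtain ⟨L0, hL0⟩ := h1 β hβ0 hβ1
  obtain ⟨Λ0, hΛ0⟩ := h2 a ha0 ha1
  obtain ⟨L, hL⟩ : ∃ L : ℝ, L = max L0 1 := ⟨_, rfl⟩
  have hL1 : 1 ≤ L := by rw [hL]; exact le_max_right _ _
  obtain ⟨Λ, hΛ⟩ : ∃ Λ : ℝ, Λ = max Λ0 1 := ⟨_, rfl⟩
  have hΛ1 : 1 ≤ Λ := by rw [hΛ]; exact le_max_right _ _
  have hf : ∀ s t : unitInterval, dist (f s) (f t) ≤ L * |(s : ℝ) - t| ^ β := fun s t =>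
    (hL0 s t).trans (mul_le_mul_of_nonneg_right (by rw [hL]; exact le_max_left _ _) (by positivity))
  refine ⟨2 * L ^ (1 / β) * Λ * 2 ^ a, by positivity, fun z d hd hd1 => ?_⟩
  have hdL : d ≤ L := hd1.trans hL1
  have hM := H443U.Unif.num_pos hd hdL hβ0
  obtain ⟨M, hMe⟩ : ∃ M, M = num L β d := ⟨_, rfl⟩
  have hnum_ge := H443U.Unif.num_ge L β d
  have hnum_le := H443U.Unif.num_le hd hdL hβ0
  have hmod := H443U.Unif.num_mod hd hdL hβ0
  rw [← hMe] at hM hnum_ge hnum_le hmod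
  have hM0 : (0 : ℝ) < M := by exact_mod_cast hM
  obtain ⟨J, hJ⟩ : ∃ J : Finset ℕ, J = (Finset.range M).filter
    (fun j => ∃ y ∈ cell M j, dist (f y) z < d) := ⟨_, rfl⟩
  refine ⟨M, J, ?_, ?_, ?_⟩
  · have e1 : (1 : ℝ) / M ≤ (d / L) ^ (1 / β) := by
      rw [div_le_iff₀ hM0]
      have e2 : (d / L) ^ (1 / β) * (L / d) ^ (1 / β) = 1 := by
        rw [← Real.mul_rpow (by positivity) (by positivity)]
        have : d / L * (L / d) = 1 := by field_simp
        rw [this, Real.one_rpow]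
      calc (1 : ℝ) = (d / L) ^ (1 / β) * (L / d) ^ (1 / β) := e2.symm
        _ ≤ (d / L) ^ (1 / β) * M := mul_le_mul_of_nonneg_left hnum_ge (by positivity)
    refine e1.trans ?_
    have e3 : d / L ≤ d := div_le_self hd.le hL1
    calc (d / L) ^ (1 / β) ≤ d ^ (1 / β) :=
          Real.rpow_le_rpow (by positivity) e3 (by positivity)
      _ ≤ d ^ (7/4 : ℝ) := Real.rpow_le_rpow_of_exponent_ge hd hd1 (by rw [hβi]; linarith)
  · have hocc : volume {s : unitInterval | dist (f s) z < 2 * d} ≤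
        ENNReal.ofReal (Λ * (2 * d) ^ a) := by
      refine (hΛ0 z (2 * d) (by positivity)).trans (ENNReal.ofReal_le_ofReal ?_)
      exact mul_le_mul_of_nonneg_right (by rw [hΛ]; exact le_max_left _ _) (by positivity)
    have h3 := H443U.Unif.count hM hf hβ0 (by linarith) hmod hocc J (by
      intro j hj
      rw [hJ, Finset.mem_filter, Finset.mem_range] at hj
      exact hj)
    have h4 : (J.card : ℝ) * (1 / M) ≤ Λ * (2 * d) ^ a := by
      have h5 : ((J.card : ℝ≥0∞)) * ENNReal.ofReal (1 / M) = ENNReal.ofReal (J.card * (1 / M)) := by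
        rw [ENNReal.ofReal_mul (by positivity), ENNReal.ofReal_natCast]
      rw [h5] at h3
      exact (ENNReal.ofReal_le_ofReal_iff (by positivity)).1 h3
    rw [mul_one_div, div_le_iff₀ hM0] at h4
    have h6 : (J.card : ℝ) ≤ Λ * (2 * d) ^ a * (2 * (L / d) ^ (1 / β)) :=
      h4.trans (mul_le_mul_of_nonneg_left hnum_le (by positivity))
    refine h6.trans ?_
    have h7 : Λ * (2 * d) ^ a * (2 * (L / d) ^ (1 / β)) =
        2 * L ^ (1 / β) * Λ * 2 ^ a * d ^ (a - 1 / β) := by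
      rw [Real.mul_rpow (by norm_num) hd.le, Real.div_rpow (by linarith) hd.le,
        Real.rpow_sub hd]
      field_simp
    rw [h7]
    exact mul_le_mul_of_nonneg_left (Real.rpow_le_rpow_of_exponent_ge hd hd1 ha2) (by positivity)
  · intro u hu
    obtain ⟨j, hj, hju⟩ := H443U.Unif.exists_cell hM u
    refine ⟨j, ?_, hju⟩
    rw [hJ, Finset.mem_filter, Finset.mem_range]
    exact ⟨hj, u, hju, hu⟩

/-- Sets of measure zero have covers by balls with bounded sums. -/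
theorem ball_cover {Y : Set ℂ} {s : ℝ} (hs : 0 < s) (h0 : Measure.hausdorffMeasure s Y = 0)
    {ρ : ℝ} (hρ : 0 < ρ) (hρ1 : ρ ≤ 1) : ∃ (z : ℕ → ℂ) (d : ℕ → ℝ), (∀ n, 0 < d n) ∧
      (∀ n, d n ≤ ρ) ∧ (∀ x ∈ Y, ∃ n, dist x (z n) < d n) ∧
      ∑' n, ENNReal.ofReal (d n ^ s) ≤ ENNReal.ofReal (2 ^ s) * (1 + 1) := by
  classical
  obtain ⟨t, ht1, ht2, ht3⟩ := H443U.Unif.cover h0
    (ENNReal.ofReal_pos.2 (show 0 < ρ / 2 by positivity))
  obtain ⟨ε, hε⟩ : ∃ ε : ℕ → ℝ, ε = fun n => (1 / 2 / 2 ^ n) ^ (1 / s) := ⟨_, rfl⟩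
  have hε0 : ∀ n, 0 < ε n := fun n => by
    rw [hε]; exact Real.rpow_pos_of_pos (H443U.Unif.half_pow n) _
  have hε1 : ∀ n, ε n ≤ 1 := fun n => by
    rw [hε]
    exact Real.rpow_le_one (H443U.Unif.half_pow n).le (H443U.Unif.half_pow_le n) (by positivity)
  have hεs : ∀ n, ε n ^ s = 1 / 2 / 2 ^ n := fun n => by
    rw [hε]
    simp only
    rw [← Real.rpow_mul (H443U.Unif.half_pow n).le, one_div_mul_cancel hs.ne', Real.rpow_one]
  have htop : ∀ n, ediam (t n) ≠ ∞ := fun n => ((ht2 n).trans_lt ENNReal.ofReal_lt_top).ne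
  refine ⟨fun n => if h : (t n).Nonempty then h.some else 0,
    fun n => (ediam (t n)).toReal + ε n * (ρ / 2), ?_, ?_, ?_, ?_⟩
  · intro n
    have h1 : 0 ≤ (ediam (t n)).toReal := ENNReal.toReal_nonneg
    have h2 : 0 < ε n * (ρ / 2) := mul_pos (hε0 n) (by positivity)
    linarith
  · intro n
    have h1 : (ediam (t n)).toReal ≤ ρ / 2 :=
      ENNReal.toReal_le_of_le_ofReal (by positivity) (ht2 n)
    have h2 : ε n * (ρ / 2) ≤ 1 * (ρ / 2) := mul_le_mul_of_nonneg_right (hε1 n) (by positivity)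
    linarith
  · intro x hx
    obtain ⟨n, hn⟩ := mem_iUnion.1 (ht1 hx)
    refine ⟨n, ?_⟩
    have hne : (t n).Nonempty := ⟨x, hn⟩
    simp only [dif_pos hne]
    have h3 : edist x hne.some ≤ ediam (t n) := edist_le_ediam_of_mem hn hne.some_mem
    have h4 : dist x hne.some ≤ (ediam (t n)).toReal := by
      rw [dist_edist]
      exact ENNReal.toReal_mono (htop n) h3
    have h5 : 0 < ε n * (ρ / 2) := mul_pos (hε0 n) (by positivity)
    linarith
  · have h1 : ∀ n, ENNReal.ofReal (((ediam (t n)).toReal + ε n * (ρ / 2)) ^ s) ≤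
        ENNReal.ofReal (2 ^ s) * ((⨆ _ : (t n).Nonempty, ediam (t n) ^ s) +
          ENNReal.ofReal (1 / 2 / 2 ^ n)) := by
      intro n
      have h2 : ((ediam (t n)).toReal + ε n * (ρ / 2)) ^ s ≤
          2 ^ s * ((ediam (t n)).toReal ^ s + 1 / 2 / 2 ^ n) := by
        refine (Real.rpow_le_rpow (by have := hε0 n; positivity)
          (add_le_add le_rfl (show ε n * (ρ / 2) ≤ ε n from
            mul_le_of_le_one_right (hε0 n).le (by linarith))) hs.le).trans ?_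
        refine (H443U.Unif.add_rpow_le' ENNReal.toReal_nonneg (hε0 n).le hs).trans ?_
        rw [hεs]
      refine (ENNReal.ofReal_le_ofReal h2).trans ?_
      rw [ENNReal.ofReal_mul (by positivity), ENNReal.ofReal_add (by positivity) (by positivity)]
      refine mul_le_mul' le_rfl (add_le_add ?_ le_rfl)
      rw [← ENNReal.ofReal_rpow_of_nonneg ENNReal.toReal_nonneg hs.le,
        ENNReal.ofReal_toReal (htop n)]
      by_cases hne : (t n).Nonempty
      · simp only [hne, iSup_pos]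
        exact le_rfl
      · rw [not_nonempty_iff_eq_empty] at hne
        rw [hne]
        simp [hs]
    refine (ENNReal.tsum_le_tsum h1).trans ?_
    rw [ENNReal.tsum_mul_left, ENNReal.tsum_add, H443U.Unif.sum_half]
    exact mul_le_mul' le_rfl (add_le_add ht3.le le_rfl)

end Pool.Agent.Zk33.HG
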