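import Pool.Agent.Zk33.HG.CT1

/-!
Collision times of several curves: the dimension.
-/

set_option autoImplicit false

namespace Pool.Agent.Zk33.HG

open MeasureTheory Set Filter Topology Metric
open scoped ENNReal NNReal
open H443U.Unif (cell num)

/-- The `k`-tuples of times at which the curves are at the same point of `Y`. -/
def Coll {k : ℕ} (f : Fin k → unitInterval → ℂ) (Y : Set ℂ) : Set (Fin k → unitInterval) :=
  {u | ∃ y ∈ Y, ∀ i, f i (u i) = y}

theorem coll_haus {k : ℕ} {f : Fin k → unitInterval → ℂ} (hf : ∀ i, CovP (f i)) {Y : Set ℂ}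
    {s t η : ℝ} (hs : 0 < s) (hη : 0 < η) (ht0 : 0 < t) (ht : s + k * η ≤ 7/4 * t)
    (h0 : Measure.hausdorffMeasure s Y = 0) : Measure.hausdorffMeasure t (Coll f Y) ≠ ∞ := by
  classical
  choose C hC hcov using fun i => hf i η hη
  obtain ⟨Cm, hCm⟩ : ∃ Cm : ℝ, Cm = 1 + ∑ i, C i := ⟨_, rfl⟩
  have hCi : ∀ i, C i ≤ Cm := fun i => by
    have := Finset.single_le_sum (f := C) (fun j _ => (hC j).le) (Finset.mem_univ i)
    linarith
  have hCm0 : 0 < Cm := by
    have : 0 ≤ ∑ i, C i := Finset.sum_nonneg fun j _ => (hC j).le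
    linarith
  have hk : ∀ m : ℕ, (0 : ℝ) < 1 / ((m : ℝ) + 1) := fun m => by positivity
  have hk1 : ∀ m : ℕ, 1 / ((m : ℝ) + 1) ≤ 1 := fun m => by
    rw [div_le_one (by positivity)]
    have : (0 : ℝ) ≤ m := Nat.cast_nonneg m
    linarith
  choose z d hd0 hd1 hYc hsum using fun m : ℕ => ball_cover hs h0 (hk m) (hk1 m)
  have hd2 : ∀ m n, d m n ≤ 1 := fun m n => (hd1 m n).trans (hk1 m)
  choose M J hM hJ hcv using fun (i : Fin k) (m n : ℕ) => hcov i (z m n) (d m n) (hd0 m n) (hd2 m n)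
  obtain ⟨U, hU⟩ : ∃ U : ℕ → ℕ × (Fin k → ℕ) → Set (Fin k → unitInterval),
    U = fun m p => {u | ∀ i, p.2 i ∈ J i m p.1 ∧ u i ∈ cell (M i m p.1) (p.2 i)} := ⟨_, rfl⟩
  have hUd : ∀ m p, ediam (U m p) ≤ ENNReal.ofReal (d m p.1 ^ (7/4 : ℝ)) := by
    intro m p
    rw [hU]
    apply ediam_le
    intro u hu v hv
    rw [edist_pi_le_iff]
    intro i
    rw [edist_dist]
    apply ENNReal.ofReal_le_ofReal
    rw [Subtype.dist_eq, Real.dist_eq]
    exact (H443U.Unif.cell_dist (hu i).2 (hv i).2).trans (hM i m p.1)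
  have hUr : ∀ m p, ediam (U m p) ≤ ENNReal.ofReal (1 / ((m : ℝ) + 1)) := fun m p => by
    refine (hUd m p).trans (ENNReal.ofReal_le_ofReal ?_)
    refine le_trans ?_ (hd1 m p.1)
    calc d m p.1 ^ (7/4 : ℝ) ≤ d m p.1 ^ (1 : ℝ) :=
          Real.rpow_le_rpow_of_exponent_ge (hd0 _ _) (hd2 _ _) (by norm_num)
      _ = d m p.1 := Real.rpow_one _
  have hr : Tendsto (fun m : ℕ => ENNReal.ofReal (1 / ((m : ℝ) + 1))) atTop (𝓝 0) := by
    have := ENNReal.tendsto_ofReal (tendsto_one_div_add_atTop_nhds_zero_nat (𝕜 := ℝ))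
    rwa [ENNReal.ofReal_zero] at this
  have hcover : ∀ m, Coll f Y ⊆ ⋃ p, U m p := by
    rintro m u ⟨y, hy, hu⟩
    obtain ⟨n, hn⟩ := hYc m y hy
    have h1 : ∀ i, ∃ j ∈ J i m n, u i ∈ cell (M i m n) j := fun i =>
      hcv i m n (u i) (by rw [hu i]; exact hn)
    choose c hc1 hc2 using h1
    refine mem_iUnion.2 ⟨(n, c), ?_⟩
    rw [hU]
    exact fun i => ⟨hc1 i, hc2 i⟩
  have hbd : ∀ m, ∑' p, ediam (U m p) ^ t ≤
      ENNReal.ofReal (Cm ^ k) * (ENNReal.ofReal (2 ^ s) * (1 + 1)) := by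
    intro m
    rw [ENNReal.tsum_prod']
    have h1 : ∀ n, ∑' c : Fin k → ℕ, ediam (U m (n, c)) ^ t ≤
        ENNReal.ofReal (Cm ^ k) * ENNReal.ofReal (d m n ^ s) := by
      intro n
      have hdp := hd0 m n
      have h2 : ∑' c : Fin k → ℕ, ediam (U m (n, c)) ^ t =
          ∑ c ∈ Fintype.piFinset (fun i => J i m n), ediam (U m (n, c)) ^ t := by
        apply tsum_eq_sum
        intro c hc
        rw [Fintype.mem_piFinset] at hc
        have h3 : U m (n, c) = ∅ := by
          rw [eq_empty_iff_forall_notMem]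
          intro u hu
          rw [hU] at hu
          exact hc fun i => (hu i).1
        rw [h3]
        simp [ht0]
      rw [h2]
      have h4 : ∀ c ∈ Fintype.piFinset (fun i => J i m n), ediam (U m (n, c)) ^ t ≤
          ENNReal.ofReal (d m n ^ (7/4 * t)) := by
        intro c _
        refine (ENNReal.rpow_le_rpow (hUd m (n, c)) ht0.le).trans ?_
        rw [ENNReal.ofReal_rpow_of_nonneg (by positivity) ht0.le, ← Real.rpow_mul hdp.le]
      refine (Finset.sum_le_sum h4).trans ?_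
      rw [Finset.sum_const, nsmul_eq_mul, Fintype.card_piFinset, ← ENNReal.ofReal_natCast,
        ← ENNReal.ofReal_mul (by positivity), ← ENNReal.ofReal_mul (by positivity)]
      apply ENNReal.ofReal_le_ofReal
      push_cast
      have h5 : (∏ i, ((J i m n).card : ℝ)) ≤ ∏ _i : Fin k, (Cm * d m n ^ (-η)) := by
        refine Finset.prod_le_prod (fun i _ => by positivity) fun i _ => ?_
        exact (hJ i m n).trans (mul_le_mul_of_nonneg_right (hCi i) (by positivity))
      rw [Finset.prod_const, Finset.card_univ, Fintype.card_fin] at h5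
      calc (∏ i, ((J i m n).card : ℝ)) * d m n ^ (7/4 * t)
          ≤ (Cm * d m n ^ (-η)) ^ k * d m n ^ (7/4 * t) :=
            mul_le_mul_of_nonneg_right h5 (by positivity)
        _ = Cm ^ k * d m n ^ (7/4 * t - k * η) := by
            rw [mul_pow, mul_assoc, ← Real.rpow_natCast (d m n ^ (-η)) k, ← Real.rpow_mul hdp.le,
              ← Real.rpow_add hdp]
            congr 2
            ring
        _ ≤ Cm ^ k * d m n ^ s := by
            refine mul_le_mul_of_nonneg_left ?_ (by positivity)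
            exact Real.rpow_le_rpow_of_exponent_ge hdp (hd2 m n) (by linarith)
    refine (ENNReal.tsum_le_tsum h1).trans ?_
    rw [ENNReal.tsum_mul_left]
    exact mul_le_mul' le_rfl (hsum m)
  have hle := Measure.hausdorffMeasure_le_liminf_tsum t (Coll f Y)
    (l := atTop) (fun m : ℕ => ENNReal.ofReal (1 / ((m : ℝ) + 1))) hr U
    (Eventually.of_forall fun m p => hUr m p) (Eventually.of_forall hcover)
  have hle2 := hle.trans ((liminf_le_liminf (Eventually.of_forall hbd)).trans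
    (liminf_const _).le)
  refine (hle2.trans_lt ?_).ne
  exact ENNReal.mul_lt_top ENNReal.ofReal_lt_top
    (ENNReal.mul_lt_top ENNReal.ofReal_lt_top (by norm_num))

end Pool.Agent.Zk33.HG
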