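import Pool.Agent.Zk33.HF.Main2
import Pool.Agent.H934R3.D74.Asm

/-!
Independence of the scales near the end point `b = 0`: statements (as propositions, nothing is
assumed) of the modules.
-/

set_option autoImplicit false

namespace Pool.Agent.Zk33.HG

open H974 H984N H934F Finset H342P H984P MeasureTheory Filter Topology Metric
open Pool.Agent.Zk33.HF Pool.Agent.H389R2.Dim
open scoped ENNReal NNReal

/-- The square of size `y` above the end point `0`, at height about `4 y`. -/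
def Cor (y : ℝ) : Set ℂ := {z | |z.re| ≤ y / 2 ∧ 7 / 2 * y ≤ z.im ∧ z.im ≤ 9 / 2 * y}

/-- The largest scale. -/
noncomputable def Y0 (R : H984N.Rect) : ℝ := min R.A (min R.B R.H) / 20

/-- Single scale: the event `A` is good. -/
def StSS : Prop := ∀ s t c : ℝ, 0 ≤ t → t + 1/4 < s → 0 < c → ∃ p κ : ℝ, 0 < p ∧ p ≤ 1 ∧ 0 < κ ∧
  ∀ R : H984N.Rect, ∃ δ0 : ℝ, 0 < δ0 ∧ ∀ y : ℝ, 0 < y → y ≤ Y0 R →
    ∀ S : Set ℂ, IsCompact S → S ⊆ Cor y → Content s (c * y ^ s) S →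
    ∀ ρ : ℝ, 0 < ρ → ρ ≤ y / 400 → ∀ δ : ℝ, 0 < δ → δ ≤ δ0 → δ ≤ ρ / 100 →
    ∃ A : Finset Edg → Prop, (∀ F, A F ↔ A (F ∩ SR ⌊y / δ⌋)) ∧ SR ⌊y / δ⌋ ⊆ (R.dm δ).edges ∧
      p ≤ P (R.dm δ).edges A ∧
      ∀ F, F ⊆ (R.dm δ).edges → A F →
        Good t ρ (κ * y ^ t) (NS Gd ρ S (R.curve δ F, R.time δ F))

/-- A rapidly decreasing sequence of scales, and compact subsets of positive content. -/
structure Sc (s c Y : ℝ) (y : ℕ → ℝ) (S : ℕ → Set ℂ) : Prop where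
  pos : ∀ i, 0 < y i
  le : ∀ i, y i ≤ Y
  dec : ∀ i, y (i + 1) ≤ y i / 20
  cpt : ∀ i, IsCompact (S i)
  sub : ∀ i, S i ⊆ Cor (y i)
  con : ∀ i, Content s (c * y i ^ s) (S i)

/-- One curve: the intersection has positive content at infinitely many scales. -/
def StW : Prop := ∀ s t c : ℝ, 0 ≤ t → t + 1/4 < s → 0 < c → ∃ κ : ℝ, 0 < κ ∧
  ∀ (R : H984N.Rect) (μ : ProbabilityMeasure X), IsLimit R μ →
  ∀ (y : ℕ → ℝ) (S : ℕ → Set ℂ), Sc s c (Y0 R) y S →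
    ∀ᵐ ω ∂(μ : Measure X), ∃ᶠ i in atTop, Content t (κ * y i ^ t) (S i ∩ Set.range ω.1)

/-- Several independent curves. -/
def StWk : Prop := ∀ (k : ℕ) (s t c : ℝ), 0 ≤ t → t + (k : ℝ) / 4 < s → 0 < c → ∃ κ : ℝ, 0 < κ ∧
  ∀ (R : Fin k → H984N.Rect) (μ : Fin k → ProbabilityMeasure X), (∀ i, IsLimit (R i) (μ i)) →
  ∀ Y : ℝ, (∀ i, Y ≤ Y0 (R i)) → ∀ (y : ℕ → ℝ) (S : ℕ → Set ℂ), Sc s c Y y S →
    ∀ᵐ ω ∂(Pm μ), ∃ᶠ i in atTop, Content t (κ * y i ^ t) (S i ∩ comm ω)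

end Pool.Agent.Zk33.HG
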