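import Pool.Agent.Zk33.HG.NullDefs

/-!
Null sets have Hausdorff measure zero.
-/

set_option autoImplicit false

namespace Pool.Agent.Zk33.HG

open H984N MeasureTheory Filter Topology Metric Set Pool.Agent.Zk33.HF
open scoped ENNReal NNReal

theorem haus_of_null {K : Set ℂ} {s : ℝ} (hs : 0 < s) (h : Null s K) :
    Measure.hausdorffMeasure s K = 0 := by
  have hcov : ∀ n : ℕ, ∃ S : Finset (ℂ × ℝ), (∀ p ∈ S, 0 < p.2) ∧
      K ⊆ ⋃ p ∈ S, ball p.1 p.2 ∧ ∑ p ∈ S, p.2 ^ s < 1 / ((n : ℝ) + 1) := by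
    intro n
    have h1 := h (1 / ((n : ℝ) + 1)) (by positivity)
    unfold HF.Content at h1
    push Not at h1
    obtain ⟨S, h2, h3, h4⟩ := h1
    exact ⟨S, h2, h3, h4⟩
  choose S hS1 hS2 hS3 using hcov
  have hr : Tendsto (fun n : ℕ => ENNReal.ofReal (2 * (1 / ((n : ℝ) + 1)) ^ (1 / s))) atTop
      (𝓝 0) := by
    have h1 : Tendsto (fun n : ℕ => 2 * (1 / ((n : ℝ) + 1)) ^ (1 / s)) atTop (𝓝 0) := by
      have h2 : Tendsto (fun n : ℕ => 1 / ((n : ℝ) + 1)) atTop (𝓝 0) :=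
        tendsto_one_div_add_atTop_nhds_zero_nat
      have h3 := (h2.rpow_const (p := 1 / s) (Or.inr (by positivity))).const_mul 2
      rwa [Real.zero_rpow (by positivity), mul_zero] at h3
    have h4 := ENNReal.tendsto_ofReal h1
    rwa [ENNReal.ofReal_zero] at h4
  set U : ∀ n : ℕ, {p // p ∈ S n} → Set ℂ := fun n i => ball i.1.1 i.1.2 with hU
  have hdi : ∀ n : ℕ, ∀ i : {p // p ∈ S n},
      ediam (U n i) ≤ ENNReal.ofReal (2 * (1 / ((n : ℝ) + 1)) ^ (1 / s)) := by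
    intro n i
    have hi := hS1 n i.1 i.2
    have h1 : i.1.2 ^ s ≤ 1 / ((n : ℝ) + 1) := by
      refine le_trans ?_ (hS3 n).le
      exact Finset.single_le_sum (f := fun p : ℂ × ℝ => p.2 ^ s)
        (fun p hp => Real.rpow_nonneg (hS1 n p hp).le _) i.2
    have h2 : i.1.2 ≤ (1 / ((n : ℝ) + 1)) ^ (1 / s) := by
      have h3 := Real.rpow_le_rpow (Real.rpow_nonneg hi.le _) h1 (z := 1 / s) (by positivity)
      rwa [← Real.rpow_mul hi.le, mul_one_div_cancel hs.ne', Real.rpow_one] at h3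
    refine (ediam_ball_le' hi.le).trans ?_
    gcongr
  have hcv : ∀ n : ℕ, K ⊆ ⋃ i, U n i := by
    intro n z hz
    obtain ⟨p, hp, hzp⟩ := mem_iUnion₂.1 (hS2 n hz)
    exact mem_iUnion.2 ⟨⟨p, hp⟩, hzp⟩
  have hle := Measure.hausdorffMeasure_le_liminf_sum (X := ℂ) (ι := fun n : ℕ => {p // p ∈ S n})
    s K (l := atTop) _ hr U (Eventually.of_forall hdi) (Eventually.of_forall hcv)
  have hle2 : ∀ n : ℕ, ∑ i : {p // p ∈ S n}, ediam (U n i) ^ s ≤
      ENNReal.ofReal (2 ^ s * (1 / ((n : ℝ) + 1))) := by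
    intro n
    have h1 : ∀ i : {p // p ∈ S n}, ediam (U n i) ^ s ≤ ENNReal.ofReal (2 ^ s * i.1.2 ^ s) := by
      intro i
      have hi := hS1 n i.1 i.2
      have h2 : ediam (U n i) ≤ ENNReal.ofReal (2 * i.1.2) := ediam_ball_le' hi.le
      calc ediam (U n i) ^ s ≤ ENNReal.ofReal (2 * i.1.2) ^ s := ENNReal.rpow_le_rpow h2 hs.le
        _ = ENNReal.ofReal (2 ^ s * i.1.2 ^ s) := by
            rw [ENNReal.ofReal_rpow_of_pos (by positivity),
              Real.mul_rpow (by norm_num) hi.le]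
    calc ∑ i : {p // p ∈ S n}, ediam (U n i) ^ s
        ≤ ∑ i : {p // p ∈ S n}, ENNReal.ofReal (2 ^ s * i.1.2 ^ s) :=
          Finset.sum_le_sum fun i _ => h1 i
      _ = ENNReal.ofReal (∑ i : {p // p ∈ S n}, 2 ^ s * i.1.2 ^ s) := by
          rw [ENNReal.ofReal_sum_of_nonneg]
          intro i _
          have := Real.rpow_nonneg (hS1 n i.1 i.2).le s
          positivity
      _ ≤ ENNReal.ofReal (2 ^ s * (1 / ((n : ℝ) + 1))) := by
          apply ENNReal.ofReal_le_ofReal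
          rw [← Finset.mul_sum]
          have h3 : ∑ i : {p // p ∈ S n}, i.1.2 ^ s = ∑ p ∈ S n, p.2 ^ s :=
            Finset.sum_coe_sort (S n) fun p : ℂ × ℝ => p.2 ^ s
          rw [h3]
          exact mul_le_mul_of_nonneg_left (hS3 n).le (by positivity)
  have hlim : Tendsto (fun n : ℕ => ENNReal.ofReal (2 ^ s * (1 / ((n : ℝ) + 1)))) atTop (𝓝 0) := by
    have h1 := (tendsto_one_div_add_atTop_nhds_zero_nat (𝕜 := ℝ)).const_mul ((2:ℝ) ^ s)
    rw [mul_zero] at h1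
    have h2 := ENNReal.tendsto_ofReal h1
    rwa [ENNReal.ofReal_zero] at h2
  have h5 : liminf (fun n : ℕ => ∑ i : {p // p ∈ S n}, ediam (U n i) ^ s) atTop ≤ 0 := by
    rw [← hlim.liminf_eq]
    exact liminf_le_liminf (Eventually.of_forall hle2)
  exact le_antisymm (hle.trans h5) (zero_le)

end Pool.Agent.Zk33.HG
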