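import Pool.Agent.Zk33.HF.Main2

/-!
Sets of measure zero: statements (as propositions, nothing is assumed) of the modules.
-/

set_option autoImplicit false

namespace Pool.Agent.Zk33.HG

open H984N MeasureTheory Filter Topology Metric Set Pool.Agent.Zk33.HF
open scoped ENNReal NNReal

/-- No positive content: there are finite covers by discs with arbitrarily small `∑ r ^ t`. -/
def Null (t : ℝ) (S : Set ℂ) : Prop := ∀ c : ℝ, 0 < c → ¬ Content t c S

/-- One curve lowers the dimension by `1/4`. -/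
def StN1 : Prop := ∀ (R : Rect) (K : Set ℂ), IsCompact K → K ⊆ R.D →
  ∀ μ : ProbabilityMeasure X, IsLimit R μ → ∀ S : Set ℂ, S ⊆ K → IsCompact S →
  ∀ s : ℝ, 1/4 ≤ s → Null s S → ∀ᵐ ω ∂(μ : Measure X), Null (s - 1/4) (S ∩ range ω.1)

/-- Several curves. -/
def StNk : Prop := ∀ (k : ℕ) (R : Fin k → Rect) (K : Set ℂ), IsCompact K → (∀ i, K ⊆ (R i).D) →
  ∀ μ : Fin k → ProbabilityMeasure X, (∀ i, IsLimit (R i) (μ i)) → ∀ S : Set ℂ, S ⊆ K →
  IsCompact S → ∀ s : ℝ, (k : ℝ) / 4 ≤ s → Null s S →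
  ∀ᵐ ω ∂(Pm μ), Null (s - (k : ℝ) / 4) (S ∩ comm ω)

/-- The trace of one curve has measure zero in the dimension `7/4`. -/
def StN0 : Prop := ∀ (R : Rect) (μ : ProbabilityMeasure X), IsLimit R μ →
  ∀ᵐ ω ∂(μ : Measure X), Null (7/4) (range ω.1)

/-- The common points have measure zero in their dimension. -/
def StNc : Prop := ∀ (k : ℕ), 1 ≤ k → k ≤ 8 → ∀ (R : Fin k → Rect) (K : Set ℂ), IsCompact K →
  (∀ i, K ⊆ (R i).D) → ∀ μ : Fin k → ProbabilityMeasure X, (∀ i, IsLimit (R i) (μ i)) →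
  ∀ᵐ ω ∂(Pm μ), Null (2 - (k : ℝ) / 4) (K ∩ comm ω)

end Pool.Agent.Zk33.HG
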