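import Pool.Agent.Zk33.HG.Defs

/-!
Single scale: the lattice event near a point and its deterministic consequences.
-/

set_option autoImplicit false

namespace Pool.Agent.Zk33.HG

open H974 H984N H934F Finset H342P H984P MeasureTheory Filter Topology Metric
open Pool.Agent.Zk33.HF Pool.Agent.H389R2.Dim
open scoped ENNReal NNReal

/-- Near `z` there is a vertex of the core with both arms, and both strips are crossed. -/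
def LH (s : Bool × Bool) (δ y ρ : ℝ) (z : ℂ) (F : Finset Edg) : Prop :=
  (CL ⌊y / δ⌋ F ∧ CR ⌊y / δ⌋ F) ∧
    ∃ v : Vtx, nd v (vx δ z) ≤ ⌊ρ / (4 * δ)⌋ ∧ E2 s ⌊y / δ⌋ v F

/-- Scales. -/
structure Scl (δ y ρ : ℝ) : Prop where
  d : 0 < δ
  dr : δ ≤ ρ / 100
  ry : ρ ≤ y / 400

namespace Scl

variable {δ y ρ : ℝ}

theorem r (h : Scl δ y ρ) : 0 < ρ := by linarith [h.d, h.dr]

theorem yp (h : Scl δ y ρ) : 0 < y := by linarith [h.r, h.ry]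

theorem hh (h : Scl δ y ρ) : 2 ≤ ⌊y / δ⌋ := by
  rw [Int.le_floor, le_div_iff₀ h.d]
  push_cast
  linarith [h.d, h.dr, h.ry, h.r]

theorem rr (h : Scl δ y ρ) : 1 ≤ ⌊ρ / (4 * δ)⌋ := by
  rw [Int.le_floor, le_div_iff₀ (by linarith [h.d])]
  push_cast
  linarith [h.d, h.dr, h.ry, h.r]

theorem core {z : ℂ} (h : Scl δ y ρ) (hz : z ∈ Cor y) {v : Vtx}
    (hv : nd v (vx δ z) ≤ ⌊ρ / (4 * δ)⌋) : v ∈ core ⌊y / δ⌋ := by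
  obtain ⟨⟨a1, a2⟩, a3, a4⟩ := t13_nd hv
  have hδ := h.d
  obtain ⟨z1, z2, z3⟩ := hz
  have hY1 : ((⌊y / δ⌋ : ℤ) : ℝ) ≤ y / δ := Int.floor_le _
  have hY2 : y / δ < ((⌊y / δ⌋ : ℤ) : ℝ) + 1 := Int.lt_floor_add_one _
  have hR1 : ((⌊ρ / (4 * δ)⌋ : ℤ) : ℝ) ≤ ρ / (4 * δ) := Int.floor_le _
  have hR2 : ρ / (4 * δ) ≤ y / δ / 1600 := by
    rw [div_div, div_le_div_iff₀ (by positivity) (by positivity)]
    nlinarith [h.ry]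
  have hY3 : 40000 ≤ y / δ := by
    rw [le_div_iff₀ hδ]
    linarith [h.d, h.dr, h.ry]
  have x1 : ((⌊z.re / δ⌋ : ℤ) : ℝ) ≤ z.re / δ := Int.floor_le _
  have x2 : z.re / δ < (⌊z.re / δ⌋ : ℤ) + 1 := Int.lt_floor_add_one _
  have y1 : ((⌊z.im / δ⌋ : ℤ) : ℝ) ≤ z.im / δ := Int.floor_le _
  have y2 : z.im / δ < (⌊z.im / δ⌋ : ℤ) + 1 := Int.lt_floor_add_one _
  have c1 : |z.re / δ| ≤ y / δ / 2 := by
    rw [abs_div, abs_of_pos hδ, div_div, mul_comm δ 2, ← div_div]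
    exact div_le_div_of_nonneg_right z1 hδ.le
  obtain ⟨c1, c1'⟩ := abs_le.1 c1
  have c2 : 7 / 2 * (y / δ) ≤ z.im / δ := by
    rw [← mul_div_assoc]
    exact div_le_div_of_nonneg_right z2 hδ.le
  have c3 : z.im / δ ≤ 9 / 2 * (y / δ) := by
    rw [← mul_div_assoc]
    exact div_le_div_of_nonneg_right z3 hδ.le
  have b1 : -((⌊ρ / (4 * δ)⌋ : ℤ) : ℝ) ≤ v.1 - (⌊z.re / δ⌋ : ℤ) := by exact_mod_cast a1
  have b2 : (v.1 : ℝ) - (⌊z.re / δ⌋ : ℤ) ≤ (⌊ρ / (4 * δ)⌋ : ℤ) := by exact_mod_cast a2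
  have b3 : -((⌊ρ / (4 * δ)⌋ : ℤ) : ℝ) ≤ v.2 - ((⌊z.im / δ⌋ : ℤ) - 1) := by exact_mod_cast a3
  have b4 : (v.2 : ℝ) - ((⌊z.im / δ⌋ : ℤ) - 1) ≤ (⌊ρ / (4 * δ)⌋ : ℤ) := by exact_mod_cast a4
  generalize (⌊y / δ⌋ : ℤ) = H at *
  rw [mem_core]
  refine ⟨⟨?_, ?_⟩, ?_, ?_⟩
  · have : -(H : ℝ) ≤ v.1 := by linarith
    exact_mod_cast this
  · have : (v.1 : ℝ) ≤ H := by linarith
    exact_mod_cast this
  · have : 3 * (H : ℝ) ≤ v.2 := by linarith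
    exact_mod_cast this
  · have : (v.2 : ℝ) ≤ 5 * H := by linarith
    exact_mod_cast this

theorem loc {z : ℂ} (h : Scl δ y ρ) (hz : z ∈ Cor y) (s : Bool × Bool) (F : Finset Edg) :
    LH s δ y ρ z F ↔ LH s δ y ρ z (F ∩ SR ⌊y / δ⌋) := by
  have h1 : 1 ≤ ⌊y / δ⌋ := by have := h.hh; omega
  unfold LH
  rw [← t6_CL h1 F, ← t6_CR h1 F]
  refine and_congr_right fun _ => ?_
  constructor
  · rintro ⟨v, hv, hE⟩
    exact ⟨v, hv, (t6_E2 (h.core hz hv) F).1 hE⟩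
  · rintro ⟨v, hv, hE⟩
    exact ⟨v, hv, (t6_E2 (h.core hz hv) F).2 hE⟩

theorem L16 (h : Scl δ y ρ) {R : H984N.Rect} (hy : y ≤ Y0 R) :
    16 * ((⌊y / δ⌋ : ℤ) : ℝ) * δ ≤ (H443B.toE R).L0 := by
  have h1 : ((⌊y / δ⌋ : ℤ) : ℝ) ≤ y / δ := Int.floor_le _
  have h2 : ((⌊y / δ⌋ : ℤ) : ℝ) * δ ≤ y := by
    calc ((⌊y / δ⌋ : ℤ) : ℝ) * δ ≤ y / δ * δ := mul_le_mul_of_nonneg_right h1 h.d.le
      _ = y := by have := h.d; field_simp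
  have h3 : y ≤ (H443B.toE R).L0 / 20 := hy
  have := h.yp
  linarith

theorem SRs (h : Scl δ y ρ) {R : H984N.Rect} (hy : y ≤ Y0 R) :
    SR ⌊y / δ⌋ ⊆ (R.dm δ).edges := by
  have h1 := SR_sub (H443B.toE R) h.d h.hh (h.L16 hy)
  rwa [H443B.edges_eq] at h1

/-- The lattice event implies that the curve comes near. -/
theorem near (h : Scl δ y ρ) {R : H984N.Rect} (hy : y ≤ Y0 R) (hok : (R.dm δ).Ok) {z : ℂ}
    (hz : z ∈ Cor y) {s : Bool × Bool} {F : Finset Edg} (hF : F ⊆ (R.dm δ).edges)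
    (hL : LH s δ y ρ z F) : ∃ u, dist (R.curve δ F u) z ≤ ρ := by
  obtain ⟨⟨hCL, hCR⟩, v, hv, hE⟩ := hL
  have hδ := h.d
  obtain ⟨h1, h2⟩ := t4 (H443B.toE R) δ hδ ⌊y / δ⌋ h.hh (h.L16 hy) F
    (by rw [H443B.edges_eq]; exact hF) hCL hCR s v (h.core hz hv) hE
  rw [H443B.clu_eq] at h1
  rw [H443B.dclu_eq] at h2
  have e : H443B.qs (H443B.sq s) = s := H443B.qs_sq s
  rw [← e, H443B.face_eq] at h2
  obtain ⟨k, hk, hw⟩ := H443B.visited hok hF (σ := (v, H443B.sq s)) h1 h2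
  obtain ⟨u, hu⟩ := H443B.node_mem (p := fun k => pos δ ((R.dm δ).walk F k)) hk
  refine ⟨u, ?_⟩
  have hu' : R.curve δ F u = pos δ (v, H443B.sq s) := by
    rw [← hw]
    exact hu
  rw [hu']
  obtain ⟨⟨a1, a2⟩, a3, a4⟩ := t13_nd hv
  have hR1 : ((⌊ρ / (4 * δ)⌋ : ℤ) : ℝ) ≤ ρ / (4 * δ) := Int.floor_le _
  have x1 : ((⌊z.re / δ⌋ : ℤ) : ℝ) ≤ z.re / δ := Int.floor_le _
  have x2 : z.re / δ < (⌊z.re / δ⌋ : ℤ) + 1 := Int.lt_floor_add_one _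
  have y1 : ((⌊z.im / δ⌋ : ℤ) : ℝ) ≤ z.im / δ := Int.floor_le _
  have y2 : z.im / δ < (⌊z.im / δ⌋ : ℤ) + 1 := Int.lt_floor_add_one _
  have b1 : -((⌊ρ / (4 * δ)⌋ : ℤ) : ℝ) ≤ v.1 - (⌊z.re / δ⌋ : ℤ) := by exact_mod_cast a1
  have b2 : (v.1 : ℝ) - (⌊z.re / δ⌋ : ℤ) ≤ (⌊ρ / (4 * δ)⌋ : ℤ) := by exact_mod_cast a2
  have b3 : -((⌊ρ / (4 * δ)⌋ : ℤ) : ℝ) ≤ v.2 - ((⌊z.im / δ⌋ : ℤ) - 1) := by exact_mod_cast a3
  have b4 : (v.2 : ℝ) - ((⌊z.im / δ⌋ : ℤ) - 1) ≤ (⌊ρ / (4 * δ)⌋ : ℤ) := by exact_mod_cast a4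
  have qx1 := abs_le.1 (ML.qx_le (H443B.sq s))
  have qy1 := abs_le.1 (ML.qy_le (H443B.sq s))
  have ere : z.re = δ * (z.re / δ) := by field_simp
  have eim : z.im = δ * (z.im / δ) := by field_simp
  have c1 : |(pos δ (v, H443B.sq s)).re - z.re| ≤ δ * (ρ / (4 * δ) + 3 / 2) := by
    rw [ML.pos_re]
    have e1 : δ * ((v.1 : ℝ) + ML.qx (H443B.sq s)) - z.re =
        δ * ((v.1 : ℝ) + ML.qx (H443B.sq s) - z.re / δ) := by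
      rw [mul_sub, ← ere]
    rw [e1, abs_mul, abs_of_pos hδ]
    refine mul_le_mul_of_nonneg_left ?_ hδ.le
    rw [abs_le]
    constructor <;> linarith
  have c2 : |(pos δ (v, H443B.sq s)).im - z.im| ≤ δ * (ρ / (4 * δ) + 3 / 2) := by
    rw [ML.pos_im]
    have e1 : δ * ((v.2 : ℝ) + 1 + ML.qy (H443B.sq s)) - z.im =
        δ * ((v.2 : ℝ) + 1 + ML.qy (H443B.sq s) - z.im / δ) := by
      rw [mul_sub, ← eim]
    rw [e1, abs_mul, abs_of_pos hδ]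
    refine mul_le_mul_of_nonneg_left ?_ hδ.le
    rw [abs_le]
    constructor <;> linarith
  have c3 : δ * (ρ / (4 * δ) + 3 / 2) = ρ / 4 + 3 / 2 * δ := by field_simp
  rw [c3] at c1 c2
  have := ML.dist_le_of c1 c2
  linarith [h.dr, h.r]

theorem inn (h : Scl δ y ρ) {R : H984N.Rect} (hy : y ≤ Y0 R) {z : ℂ} (hz : z ∈ Cor y) :
    Inn R y z := by
  have hy0 := h.yp
  have h1 : 20 * y ≤ (H443B.toE R).L0 := by
    have : y ≤ (H443B.toE R).L0 / 20 := hy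
    linarith
  have hA : (H443B.toE R).L0 ≤ R.A := (H443B.toE R).L0_A
  have hB : (H443B.toE R).L0 ≤ R.B := (H443B.toE R).L0_B
  have hH : (H443B.toE R).L0 ≤ R.H := (H443B.toE R).L0_H
  obtain ⟨z1, z2, z3⟩ := hz
  obtain ⟨z1, z1'⟩ := abs_le.1 z1
  refine ⟨⟨?_, ?_⟩, ?_, ?_⟩ <;> linarith

/-- Lower bound at one point. -/
theorem low (h : Scl δ y ρ) {c : ℝ} (hc : 0 < c) {s : Bool × Bool} {z : ℂ} (hz : z ∈ Cor y)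
    (h12 : ∀ h : ℤ, 2 ≤ h → ∀ S : Finset Edg, SR h ⊆ S → ∀ z : Vtx, ∀ r : ℤ, 1 ≤ r →
      (∀ v : Vtx, nd v z ≤ r → v ∈ H934F.core h) →
      c * ((r : ℝ) / h) ^ (1/4 : ℝ) ≤
        H934E.Q S (fun F => (CL h F ∧ CR h F) ∧ ∃ v : Vtx, nd v z ≤ r ∧ E2 s h v F))
    {R : H984N.Rect} (hy : y ≤ Y0 R) :
    c / 8 * (ρ ^ (1/4 : ℝ) * y ^ (-(1/4) : ℝ)) ≤ P (R.dm δ).edges (LH s δ y ρ z) := by
  have hδ := h.d
  have hρ := h.r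
  have hy0 := h.yp
  refine le_trans ?_ (h12 ⌊y / δ⌋ h.hh (R.dm δ).edges (h.SRs hy) (vx δ z) ⌊ρ / (4 * δ)⌋ h.rr
    fun v hv => h.core hz hv)
  have hY1 : ((⌊y / δ⌋ : ℤ) : ℝ) ≤ y / δ := Int.floor_le _
  have hY0 : (0:ℝ) < ((⌊y / δ⌋ : ℤ) : ℝ) := by
    have := h.hh
    have : 0 < ⌊y / δ⌋ := by omega
    exact_mod_cast this
  have hR2 : ρ / (4 * δ) < ((⌊ρ / (4 * δ)⌋ : ℤ) : ℝ) + 1 := Int.lt_floor_add_one _
  have hR3 : 2 ≤ ρ / (4 * δ) := by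
    rw [le_div_iff₀ (by positivity)]
    linarith [h.dr]
  have h1 : (1 / 8) * (ρ / y) ≤ (((⌊ρ / (4 * δ)⌋ : ℤ) : ℝ) / ((⌊y / δ⌋ : ℤ) : ℝ)) := by
    rw [le_div_iff₀ hY0]
    calc 1 / 8 * (ρ / y) * ((⌊y / δ⌋ : ℤ) : ℝ) ≤ 1 / 8 * (ρ / y) * (y / δ) :=
          mul_le_mul_of_nonneg_left hY1 (by positivity)
      _ = ρ / (4 * δ) / 2 := by field_simp; norm_num
      _ ≤ _ := by linarith
  have h2 : (1 / 8) * (ρ ^ (1/4 : ℝ) * y ^ (-(1/4) : ℝ)) ≤ ((1 / 8) * (ρ / y)) ^ (1/4 : ℝ) := by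
    rw [Real.mul_rpow (by norm_num) (by positivity), Real.div_rpow hρ.le hy0.le,
      Real.rpow_neg hy0.le, ← div_eq_mul_inv]
    refine mul_le_mul_of_nonneg_right ?_ (by positivity)
    calc (1 / 8 : ℝ) = (1 / 8 : ℝ) ^ (1 : ℝ) := (Real.rpow_one _).symm
      _ ≤ _ := Real.rpow_le_rpow_of_exponent_ge (by norm_num) (by norm_num) (by norm_num)
  calc c / 8 * (ρ ^ (1/4 : ℝ) * y ^ (-(1/4) : ℝ)) =
      c * ((1 / 8) * (ρ ^ (1/4 : ℝ) * y ^ (-(1/4) : ℝ))) := by ring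
    _ ≤ _ := mul_le_mul_of_nonneg_left
        (h2.trans (Real.rpow_le_rpow (by positivity) h1 (by norm_num))) hc.le

end Scl

end Pool.Agent.Zk33.HG
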