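import Pool.Agent.Zk33.HG.SS1

/-!
Single scale: the upper bound for two points.
-/

set_option autoImplicit false

namespace Pool.Agent.Zk33.HG

open H974 H984N H934F Finset H342P H984P MeasureTheory Filter Topology Metric
open Pool.Agent.Zk33.HF Pool.Agent.H389R2.Dim
open scoped ENNReal NNReal

/-- The constant. -/
noncomputable def CC (C : ℝ) : ℝ := 4 * C * (6 : ℝ) ^ (1/4 : ℝ) +
  1024 * C ^ 3 * 5 * ((3 : ℝ) ^ (1/2 : ℝ) * ((1/4 : ℝ) ^ (-(1/4) : ℝ) * (1/2 : ℝ) ^ (-(1/4) : ℝ)))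

theorem CC_pos {C : ℝ} (hC : 1 ≤ C) : 0 < CC C := by
  unfold CC
  have : 0 < C := by linarith
  positivity

theorem Cor_dist {y : ℝ} {z w : ℂ} (hz : z ∈ Cor y) (hw : w ∈ Cor y) : dist z w ≤ 2 * y := by
  obtain ⟨z1, z2, z3⟩ := hz
  obtain ⟨w1, w2, w3⟩ := hw
  obtain ⟨z1, z1'⟩ := abs_le.1 z1
  obtain ⟨w1, w1'⟩ := abs_le.1 w1
  have := ML.dist_le_of (z := z) (w := w) (a := y) (b := y)
    (by rw [abs_le]; constructor <;> linarith) (by rw [abs_le]; constructor <;> linarith)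
  linarith

theorem Scl.up {δ y ρ : ℝ} (h : Scl δ y ρ) {C : ℝ} (hC : 1 ≤ C) (hA : AnnUp C)
    {R : H984N.Rect} (hy : y ≤ Y0 R) (hok : (R.dm δ).Ok) (s : Bool × Bool) {z w : ℂ}
    (hz : z ∈ Cor y) (hw : w ∈ Cor y) :
    P (R.dm δ).edges (fun F => LH s δ y ρ z F ∧ LH s δ y ρ w F) ≤
      CC C * (ρ ^ (2 * (1/4) : ℝ) * y ^ (-(1/4) : ℝ) * (max (dist z w) ρ) ^ (-(1/4) : ℝ)) := by
  have he0 := h.d
  have hρ := h.r
  have hη := h.yp
  have hC0 : 0 < C := by linarith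
  have hdr := h.dr
  have hry := h.ry
  obtain ⟨k, d, q1, q2, q3, q4, q5, q6⟩ := scales he0 hρ (show δ ≤ ρ / 4 by linarith) h.ry
  have hBz := bx_inn R he0 q6 (h.inn hy hz) q3
  have hBw := bx_inn R he0 q6 (h.inn hy hw) q3
  have base : P (R.dm δ).edges (fun F => LH s δ y ρ z F ∧ LH s δ y ρ w F) ≤
      P (R.dm δ).edges (fun F => VB (R.dm δ) (vx δ z) k F ∧ VB (R.dm δ) (vx δ w) k F) := by
    apply Pr_mono two_ok
    rintro F hF ⟨h1, h2⟩
    obtain ⟨u, hu⟩ := h.near hy hok hz hF h1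
    obtain ⟨u', hu'⟩ := h.near hy hok hw hF h2
    exact ⟨vb_of_near R he0 q1 u (by linarith), vb_of_near R he0 q1 u' (by linarith)⟩
  refine base.trans ?_
  have hm0 : 0 < max (dist z w) ρ := hρ.trans_le (le_max_right _ _)
  have hρ2 : ρ ^ (2 * (1/4) : ℝ) = ρ ^ (1/4 : ℝ) * ρ ^ (1/4 : ℝ) := by
    rw [← Real.rpow_add hρ]; congr 1; ring
  have hT : 0 ≤ ρ ^ (2 * (1/4) : ℝ) * y ^ (-(1/4) : ℝ) * (max (dist z w) ρ) ^ (-(1/4) : ℝ) := by
    positivity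
  have hsplit : CC C * (ρ ^ (2 * (1/4) : ℝ) * y ^ (-(1/4) : ℝ) *
        (max (dist z w) ρ) ^ (-(1/4) : ℝ)) =
      4 * C * (6 : ℝ) ^ (1/4 : ℝ) *
        (ρ ^ (2 * (1/4) : ℝ) * y ^ (-(1/4) : ℝ) * (max (dist z w) ρ) ^ (-(1/4) : ℝ)) +
      1024 * C ^ 3 * 5 * ((3 : ℝ) ^ (1/2 : ℝ) *
        ((1/4 : ℝ) ^ (-(1/4) : ℝ) * (1/2 : ℝ) ^ (-(1/4) : ℝ))) *
        (ρ ^ (2 * (1/4) : ℝ) * y ^ (-(1/4) : ℝ) * (max (dist z w) ρ) ^ (-(1/4) : ℝ)) := by
    unfold CC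
    ring
  rw [hsplit]
  rcases lt_or_ge (dist z w) (192 * ρ) with hdw | hdw
  · have h2 := vb_one hA hok (c := vx δ z) (k := k) (R := d) (by omega) hBz
    have h3 : P (R.dm δ).edges (fun F => VB (R.dm δ) (vx δ z) k F ∧ VB (R.dm δ) (vx δ w) k F) ≤
        P (R.dm δ).edges (VB (R.dm δ) (vx δ z) k) := Pr_mono two_ok fun F _ hF => hF.1
    refine h3.trans (h2.trans ?_)
    have hdpos : (0:ℝ) < d := lt_of_lt_of_le (by positivity) q4
    have h4 : ((k + 1 : ℕ) : ℝ) / d ≤ 6 * ρ / y := by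
      calc ((k + 1 : ℕ) : ℝ) / d ≤ (3 * ρ / δ) / (y / (2 * δ)) :=
            div_le_div₀ (by positivity) q2 (by positivity) q4
        _ = 6 * ρ / y := by field_simp; norm_num
    have h5 : C * (((k + 1 : ℕ) : ℝ) / d) ^ (1/4 : ℝ) ≤ C * (6 * ρ / y) ^ (1/4 : ℝ) :=
      mul_le_mul_of_nonneg_left (Real.rpow_le_rpow (by positivity) h4 (by norm_num)) hC0.le
    refine h5.trans ?_
    have h6 : C * (6 * ρ / y) ^ (1/4 : ℝ) =
        C * (6 : ℝ) ^ (1/4 : ℝ) * y ^ (-(1/4) : ℝ) * ρ ^ (1/4 : ℝ) := by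
      rw [Real.div_rpow (by positivity) hη.le, Real.mul_rpow (by norm_num) hρ.le,
        Real.rpow_neg hη.le, div_eq_mul_inv]
      ring
    have h7 := near_alg hρ hm0 (max_le hdw.le (by linarith))
    have h8 : C * (6 : ℝ) ^ (1/4 : ℝ) * y ^ (-(1/4) : ℝ) * ρ ^ (1/4 : ℝ) ≤
        4 * C * (6 : ℝ) ^ (1/4 : ℝ) *
        (ρ ^ (2 * (1/4) : ℝ) * y ^ (-(1/4) : ℝ) * (max (dist z w) ρ) ^ (-(1/4) : ℝ)) := by
      refine (mul_le_mul_of_nonneg_left h7 (by positivity)).trans (le_of_eq ?_)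
      ring
    have h9 : 0 ≤ 1024 * C ^ 3 * 5 * ((3 : ℝ) ^ (1/2 : ℝ) *
        ((1/4 : ℝ) ^ (-(1/4) : ℝ) * (1/2 : ℝ) ^ (-(1/4) : ℝ))) *
        (ρ ^ (2 * (1/4) : ℝ) * y ^ (-(1/4) : ℝ) * (max (dist z w) ρ) ^ (-(1/4) : ℝ)) :=
      mul_nonneg (by positivity) hT
    rw [h6]
    linarith
  · have hd0 : 0 < dist z w := lt_of_lt_of_le (by positivity) hdw
    have hmax : max (dist z w) ρ = dist z w := max_eq_left (by linarith)
    rw [hmax] at hT ⊢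
    have hr0 : 0 ≤ sd (vx δ z) (vx δ w) := le_max_of_le_left (abs_nonneg _)
    obtain ⟨r, hr⟩ := Int.eq_ofNat_of_zero_le hr0
    obtain ⟨g3, g5⟩ := vx_dist he0 hr
    have g4 : dist z w / 4 / δ ≤ r := by
      rw [div_le_iff₀ he0]
      have : δ ≤ dist z w / 768 := by linarith
      nlinarith
    have g6 := Cor_dist hz hw
    have g7 : (r : ℝ) ≤ (5 : ℕ) * d := by
      have e1 : dist z w / δ ≤ 2 * y / δ := div_le_div_of_nonneg_right g6 he0.le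
      have e2 : 2 ≤ y / δ := by rw [le_div_iff₀ he0]; linarith
      have e3 : 2 * y / δ = 2 * (y / δ) := by ring
      have e4 : y / (2 * δ) = (y / δ) / 2 := by field_simp
      rw [e3] at e1
      rw [e4] at q4
      push_cast
      linarith
    have n1 : 16 * (k + 1) ≤ r := by
      have h5 : 16 * (3 * ρ / δ) ≤ dist z w / 4 / δ := by
        rw [le_div_iff₀ he0]
        have : 16 * (3 * ρ / δ) * δ = 48 * ρ := by field_simp; norm_num
        rw [this]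
        linarith
      have h6 : ((16 * (k + 1) : ℕ) : ℝ) ≤ r := by
        push_cast at q2 ⊢
        linarith
      exact_mod_cast h6
    have h2 := vb_bound hC hA hok (c := vx δ z) (c' := vx δ w) (k := k) (r := r) (d := d)
      (L := 5) (by norm_num) hr hBz hBw n1 q5 (by exact_mod_cast g7)
    refine h2.trans ?_
    have q4' : y / 2 / δ ≤ d := by
      rw [div_div]
      exact q4
    have h3 := far_const (C := C) (L := ((5 : ℕ) : ℝ)) hC0.le (by positivity) he0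
      (show 0 < 3 * ρ by positivity) (show 0 < dist z w / 4 by positivity)
      (show 0 < y / 2 by positivity) q2 g4 q4'
    refine h3.trans ?_
    have e0 : (((3:ℝ) ^ (1/4 : ℝ)) ^ 2 : ℝ) = (3 : ℝ) ^ (1/2 : ℝ) := by
      rw [← Real.rpow_natCast ((3:ℝ) ^ (1/4 : ℝ)) 2, ← Real.rpow_mul (by norm_num)]
      norm_num
    have e1 : ((3 * ρ) ^ (1/4 : ℝ)) ^ 2 = (3 : ℝ) ^ (1/2 : ℝ) * ρ ^ (2 * (1/4) : ℝ) := by
      rw [Real.mul_rpow (by norm_num) hρ.le, mul_pow, hρ2, e0]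
      ring
    have e2 : (dist z w / 4) ^ (-(1/4) : ℝ) =
        (1/4 : ℝ) ^ (-(1/4) : ℝ) * dist z w ^ (-(1/4) : ℝ) := by
      rw [show dist z w / 4 = 1/4 * dist z w by ring, Real.mul_rpow (by norm_num) hd0.le]
    have e3 : (y / 2) ^ (-(1/4) : ℝ) =
        (1/2 : ℝ) ^ (-(1/4) : ℝ) * y ^ (-(1/4) : ℝ) := by
      rw [show y / 2 = 1/2 * y by ring, Real.mul_rpow (by norm_num) hη.le]
    rw [e1, e2, e3]
    have h9 : 0 ≤ 4 * C * (6 : ℝ) ^ (1/4 : ℝ) *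
        (ρ ^ (2 * (1/4) : ℝ) * y ^ (-(1/4) : ℝ) * dist z w ^ (-(1/4) : ℝ)) :=
      mul_nonneg (by positivity) hT
    refine le_trans (le_of_eq ?_) (le_add_of_nonneg_left h9)
    push_cast
    ring

end Pool.Agent.Zk33.HG
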