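import Pool.Agent.Zk33.HG.SS2

/-!
Single scale: second moment method on the lattice.
-/

set_option autoImplicit false

namespace Pool.Agent.Zk33.HG

open H974 H984N H934F Finset H342P H984P MeasureTheory Filter Topology Metric
open Pool.Agent.Zk33.HF Pool.Agent.H389R2.Dim
open scoped ENNReal NNReal

local instance : MeasurableSpace (Finset Edg) := ⊤

/-- The uniform measure on the subsets of `S`. -/
noncomputable def um (S : Finset Edg) : Measure (Finset Edg) :=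
  ∑ F ∈ S.powerset, ENNReal.ofReal ((1/2 : ℝ) ^ S.card) • Measure.dirac F

theorem um_apply (S : Finset Edg) (A : Finset Edg → Prop) :
    um S {F | A F} = ENNReal.ofReal (P S A) := by
  unfold um
  rw [Measure.finsetSum_apply]
  unfold P Pr
  have h := Ex_half S (fun F => H974.ind (A F))
  unfold H984N.E at h
  rw [h, ENNReal.ofReal_mul (by positivity), ENNReal.ofReal_sum_of_nonneg
    (fun _ _ => H974.ind_nonneg _), Finset.mul_sum]
  apply Finset.sum_congr rfl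
  intro F _
  rw [Measure.smul_apply, Measure.dirac_apply' _ (MeasurableSpace.measurableSet_top), smul_eq_mul]
  congr 1
  by_cases h : A F
  · rw [H974.ind_of h, Set.indicator_of_mem (show F ∈ {F | A F} from h)]; simp
  · rw [H974.ind_not_of h, Set.indicator_of_notMem (show F ∉ {F | A F} from h)]; simp

theorem um_real (S : Finset Edg) (A : Finset Edg → Prop) : (um S).real {F | A F} = P S A := by
  rw [Measure.real, um_apply, ENNReal.toReal_ofReal (Pr_nonneg two_ok _ _)]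

theorem um_prob (S : Finset Edg) : IsProbabilityMeasure (um S) := by
  constructor
  have h := um_apply S (fun _ => True)
  have h1 : P S (fun _ => True) = 1 := Pr_true _ (fun _ _ => trivial)
  rw [h1, ENNReal.ofReal_one] at h
  have h2 : {F : Finset Edg | True} = Set.univ := by ext; simp
  rwa [h2] at h

/-- The numerical identities. -/
theorem alg1 {a C E ρ y : ℝ} (hC : 0 < C) (hE : 0 < E) (hρ : 0 < ρ) (hy : 0 < y) :
    (a * (ρ ^ (1/4 : ℝ) * y ^ (-(1/4) : ℝ))) ^ 2 /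
      (8 * (C * (ρ ^ (2 * (1/4) : ℝ) * y ^ (-(1/4) : ℝ)) * (E * y ^ (-(1/4) : ℝ)))) =
      a ^ 2 / (8 * (C * E)) := by
  have hρ2 : ρ ^ (2 * (1/4) : ℝ) = ρ ^ (1/4 : ℝ) * ρ ^ (1/4 : ℝ) := by
    rw [← Real.rpow_add hρ]; congr 1; ring
  have h1 : 0 < ρ ^ (1/4 : ℝ) := Real.rpow_pos_of_pos hρ _
  have h2 : 0 < y ^ (-(1/4) : ℝ) := Real.rpow_pos_of_pos hy _
  rw [hρ2]
  field_simp

theorem alg2 {a C E ρ y t : ℝ} (ha : 0 < a) (hC : 0 < C) (hE : 0 < E) (hρ : 0 < ρ) (hy : 0 < y) :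
    8 * (C * (ρ ^ (2 * (1/4) : ℝ) * y ^ (-(1/4) : ℝ)) * (E * y ^ (-(1/4) : ℝ))) *
        (C * (ρ ^ (2 * (1/4) : ℝ) * y ^ (-(1/4) : ℝ)) * (E * y ^ (-(1/4 + t) : ℝ))) /
        (a * (ρ ^ (1/4 : ℝ) * y ^ (-(1/4) : ℝ))) ^ 2 =
      32 * C ^ 2 * E ^ 2 * y ^ (-t) / a ^ 4 *
        (a * (ρ ^ (1/4 : ℝ) * y ^ (-(1/4) : ℝ)) / 2) ^ 2 := by
  have hρ2 : ρ ^ (2 * (1/4) : ℝ) = ρ ^ (1/4 : ℝ) * ρ ^ (1/4 : ℝ) := by
    rw [← Real.rpow_add hρ]; congr 1; ring
  have h1 : 0 < ρ ^ (1/4 : ℝ) := Real.rpow_pos_of_pos hρ _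
  have h2 : 0 < y ^ (-(1/4) : ℝ) := Real.rpow_pos_of_pos hy _
  have h3 : y ^ (-(1/4 + t) : ℝ) = y ^ (-(1/4) : ℝ) * y ^ (-t) := by
    rw [neg_add, Real.rpow_add hy]
  rw [hρ2, h3]
  field_simp
  ring

/-- Second moment at a single scale. -/
theorem ss_core {δ y ρ : ℝ} (h : Scl δ y ρ) {C : ℝ} (hC : 1 ≤ C) (hA : AnnUp C)
    {c : ℝ} (hc : 0 < c) {s : Bool × Bool}
    (h12 : ∀ h : ℤ, 2 ≤ h → ∀ S : Finset Edg, SR h ⊆ S → ∀ z : Vtx, ∀ r : ℤ, 1 ≤ r →
      (∀ v : Vtx, nd v z ≤ r → v ∈ H934F.core h) →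
      c * ((r : ℝ) / h) ^ (1/4 : ℝ) ≤
        H934E.Q S (fun F => (CL h F ∧ CR h F) ∧ ∃ v : Vtx, nd v z ≤ r ∧ E2 s h v F))
    {R : H984N.Rect} (hy : y ≤ Y0 R) (hok : (R.dm δ).Ok) {S : Set ℂ} (hS : S ⊆ Cor y)
    {t E : ℝ} (ht : 0 ≤ t) (hE : 0 < E)
    (hW : Wt S (1/4) t (E * y ^ (-(1/4) : ℝ)) (E * y ^ (-(1/4 + t) : ℝ)) ρ) :
    ∃ A : Finset Edg → Prop, (∀ F, A F ↔ A (F ∩ SR ⌊y / δ⌋)) ∧ SR ⌊y / δ⌋ ⊆ (R.dm δ).edges ∧
      (c / 8) ^ 2 / (8 * (CC C * E)) ≤ P (R.dm δ).edges A ∧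
      ∀ F, F ⊆ (R.dm δ).edges → A F →
        Good t ρ (2 ^ (-t) / (32 * CC C ^ 2 * E ^ 2 / (c / 8) ^ 4) * y ^ t)
          (NS Gd ρ S (R.curve δ F, R.time δ F)) := by
  obtain ⟨V, w, x, hw, hx, h1, he0, he1⟩ := hW
  have := um_prob (R.dm δ).edges
  have hρ := h.r
  have hy0 := h.yp
  have hCC := CC_pos hC
  set H : ℤ × ℤ → Set (Finset Edg) := fun i => {F | LH s δ y ρ (x i) F} with hH
  have hHm : ∀ i, MeasurableSet (H i) := fun i => MeasurableSpace.measurableSet_top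
  set q : ℤ × ℤ → ℤ × ℤ → ℝ := fun i j => (max (dist (x i) (x j)) ρ) ^ (-t) with hq
  have hmp : ∀ i j, 0 < max (dist (x i) (x j)) ρ := fun i j => hρ.trans_le (le_max_right _ _)
  have hq0 : ∀ i j, 0 ≤ q i j := fun i j => Real.rpow_nonneg (hmp i j).le _
  set T : ℝ := ρ ^ (1/4 : ℝ) * y ^ (-(1/4) : ℝ) with hT
  set U : ℝ := CC C * (ρ ^ (2 * (1/4) : ℝ) * y ^ (-(1/4) : ℝ)) with hU
  have hT0 : 0 < T := by positivity
  have hU0 : 0 < U := by positivity
  have hc8 : 0 < c / 8 := by positivity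
  have hup : ∀ i ∈ V, ∀ j ∈ V, (um (R.dm δ).edges).real (H i ∩ H j) ≤
      U * (max (dist (x i) (x j)) ρ) ^ (-(1/4) : ℝ) := by
    intro i hi j hj
    have h2 := h.up hC hA hy hok s (hS (hx i hi)) (hS (hx j hj))
    have e : H i ∩ H j = {F | LH s δ y ρ (x i) F ∧ LH s δ y ρ (x j) F} := rfl
    rw [e, um_real]
    refine h2.trans (le_of_eq ?_)
    rw [hU]
    ring
  have k1 : c / 8 * T ≤ ∑ i ∈ V, w i * (um (R.dm δ).edges).real (H i) := by
    calc c / 8 * T = ∑ i ∈ V, w i * (c / 8 * T) := by rw [← Finset.sum_mul, h1, one_mul]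
      _ ≤ _ := Finset.sum_le_sum fun i hi => by
          refine mul_le_mul_of_nonneg_left ?_ (hw i hi)
          have e : H i = {F | LH s δ y ρ (x i) F} := rfl
          rw [e, um_real]
          exact h.low hc (hS (hx i hi)) h12 hy
  have k2 : ∑ i ∈ V, ∑ j ∈ V, w i * w j * (um (R.dm δ).edges).real (H i ∩ H j) ≤
      U * (E * y ^ (-(1/4) : ℝ)) := by
    calc ∑ i ∈ V, ∑ j ∈ V, w i * w j * (um (R.dm δ).edges).real (H i ∩ H j) ≤
          ∑ i ∈ V, ∑ j ∈ V, U *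
            (w i * w j * (max (dist (x i) (x j)) ρ) ^ (-(1/4) : ℝ)) := by
          refine Finset.sum_le_sum fun i hi => Finset.sum_le_sum fun j hj => ?_
          have h3 := mul_le_mul_of_nonneg_left (hup i hi j hj) (mul_nonneg (hw i hi) (hw j hj))
          exact h3.trans (le_of_eq (by ring))
      _ = U * ∑ i ∈ V, ∑ j ∈ V,
            w i * w j * (max (dist (x i) (x j)) ρ) ^ (-(1/4) : ℝ) := by
          rw [Finset.mul_sum]
          exact Finset.sum_congr rfl fun i _ => by rw [Finset.mul_sum]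
      _ ≤ _ := mul_le_mul_of_nonneg_left he0 hU0.le
  have k3 : ∑ i ∈ V, ∑ j ∈ V, w i * w j * q i j * (um (R.dm δ).edges).real (H i ∩ H j) ≤
      U * (E * y ^ (-(1/4 + t) : ℝ)) := by
    calc ∑ i ∈ V, ∑ j ∈ V, w i * w j * q i j * (um (R.dm δ).edges).real (H i ∩ H j) ≤
          ∑ i ∈ V, ∑ j ∈ V, U *
            (w i * w j * (max (dist (x i) (x j)) ρ) ^ (-(1/4 + t) : ℝ)) := by
          refine Finset.sum_le_sum fun i hi => Finset.sum_le_sum fun j hj => ?_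
          have h3 := mul_le_mul_of_nonneg_left (hup i hi j hj)
            (mul_nonneg (mul_nonneg (hw i hi) (hw j hj)) (hq0 i j))
          refine h3.trans (le_of_eq ?_)
          rw [neg_add, Real.rpow_add (hmp i j)]
          simp only [hq]
          ring
      _ = U * ∑ i ∈ V, ∑ j ∈ V,
            w i * w j * (max (dist (x i) (x j)) ρ) ^ (-(1/4 + t) : ℝ) := by
          rw [Finset.mul_sum]
          exact Finset.sum_congr rfl fun i _ => by rw [Finset.mul_sum]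
      _ ≤ _ := mul_le_mul_of_nonneg_left he1 hU0.le
  have key := second_moment (μ := um (R.dm δ).edges) hw hq0 hHm (a := c / 8 * T)
    (B := U * (E * y ^ (-(1/4) : ℝ))) (Q := U * (E * y ^ (-(1/4 + t) : ℝ)))
    (by positivity) (by positivity) (by positivity) k1 k2 k3
  have a1 : (c / 8 * T) ^ 2 / (8 * (U * (E * y ^ (-(1/4) : ℝ)))) =
      (c / 8) ^ 2 / (8 * (CC C * E)) := alg1 hCC hE hρ hy0
  rw [a1] at key
  set A : Finset Edg → Prop := fun F => c / 8 * T / 2 ≤ tot V w H F ∧ ene V w q H F ≤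
    8 * (U * (E * y ^ (-(1/4) : ℝ))) * (U * (E * y ^ (-(1/4 + t) : ℝ))) / (c / 8 * T) ^ 2 with hAd
  have hind : ∀ i ∈ V, ∀ F, ind (H i) F = ind (H i) (F ∩ SR ⌊y / δ⌋) := by
    intro i hi F
    have e := h.loc (hS (hx i hi)) s F
    unfold HF.ind
    by_cases hm : F ∈ H i
    · rw [Set.indicator_of_mem hm, Set.indicator_of_mem (show F ∩ SR ⌊y / δ⌋ ∈ H i from e.1 hm)]
    · rw [Set.indicator_of_notMem hm,
        Set.indicator_of_notMem (show F ∩ SR ⌊y / δ⌋ ∉ H i from fun h' => hm (e.2 h'))]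
  refine ⟨A, ?_, h.SRs hy, ?_, ?_⟩
  · intro F
    have e1 : tot V w H F = tot V w H (F ∩ SR ⌊y / δ⌋) := by
      unfold tot
      exact Finset.sum_congr rfl fun i hi => by rw [hind i hi F]
    have e2 : ene V w q H F = ene V w q H (F ∩ SR ⌊y / δ⌋) := by
      unfold ene
      refine Finset.sum_congr rfl fun i hi => Finset.sum_congr rfl fun j hj => ?_
      rw [ind_inter, ind_inter, hind i hi F, hind j hj F]
    simp only [hAd]
    rw [← e1, ← e2]
  · rw [← um_real]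
    exact key
  · rintro F hF ⟨g1, g2⟩
    have hK : 0 < 32 * CC C ^ 2 * E ^ 2 * y ^ (-t) / (c / 8) ^ 4 := by positivity
    have hconst : 2 ^ (-t) / (32 * CC C ^ 2 * E ^ 2 / (c / 8) ^ 4) * y ^ t =
        2 ^ (-t) / (32 * CC C ^ 2 * E ^ 2 * y ^ (-t) / (c / 8) ^ 4) := by
      rw [Real.rpow_neg hy0.le t]
      have : 0 < y ^ t := Real.rpow_pos_of_pos hy0 _
      field_simp
    rw [hconst]
    refine good_of_energy_w hρ ht hK V (fun i => w i * ind (H i) F) x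
      (fun i hi => mul_nonneg (hw i hi) (HF.ind_nonneg _ _)) ?_ ?_ ?_
    · have : 0 < tot V w H F := lt_of_lt_of_le (by positivity) g1
      exact this
    · intro i hi h0
      refine ⟨hx i hi, ?_⟩
      by_contra hcon
      apply h0
      have hnm : F ∉ H i := by
        intro hm
        exact hcon (Gd_le_iff.2 (h.near hy hok (hS (hx i hi)) hF hm))
      have : ind (H i) F = 0 := by
        unfold HF.ind
        exact Set.indicator_of_notMem hnm (fun _ => (1 : ℝ))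
      simp only [this, mul_zero]
    · have e2 : ∑ i ∈ V, ∑ j ∈ V, w i * ind (H i) F * (w j * ind (H j) F) *
          (max (dist (x i) (x j)) ρ) ^ (-t) = ene V w q H F := by
        unfold ene
        refine Finset.sum_congr rfl fun i _ => Finset.sum_congr rfl fun j _ => ?_
        rw [ind_inter]
        simp only [hq]
        ring
      rw [e2]
      refine g2.trans ?_
      have g3 : (c / 8 * T / 2) ^ 2 ≤ (tot V w H F) ^ 2 :=
        pow_le_pow_left₀ (by positivity) g1 2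
      have e3 : 8 * (U * (E * y ^ (-(1/4) : ℝ))) * (U * (E * y ^ (-(1/4 + t) : ℝ))) /
          (c / 8 * T) ^ 2 = 32 * CC C ^ 2 * E ^ 2 * y ^ (-t) / (c / 8) ^ 4 *
            (c / 8 * T / 2) ^ 2 := alg2 hc8 hCC hE hρ hy0
      rw [e3]
      exact mul_le_mul_of_nonneg_left g3 hK.le

end Pool.Agent.Zk33.HG
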