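import Pool.Agent.Zk33.HG.SS3

/-!
Single scale: the final statement.
-/

set_option autoImplicit false

namespace Pool.Agent.Zk33.HG

open H974 H984N H934F Finset H342P H984P MeasureTheory Filter Topology Metric
open Pool.Agent.Zk33.HF Pool.Agent.H389R2.Dim
open scoped ENNReal NNReal

theorem Cor_ball {y : ℝ} (hy : 0 < y) : Cor y ⊆ closedBall 0 (6 * y) := by
  rintro z ⟨z1, z2, z3⟩
  rw [mem_closedBall, dist_zero_right]
  have h1 := Complex.norm_le_abs_re_add_abs_im z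
  have h2 : |z.im| = z.im := abs_of_nonneg (by linarith)
  rw [h2] at h1
  linarith

/-- The statement about discrete measures which is used. -/
def StWt : Prop := ∀ s c b t : ℝ, 0 < c → 0 ≤ b → 0 ≤ t → b + t < s → ∃ E : ℝ, 0 < E ∧
  ∀ y : ℝ, 0 < y → ∀ S : Set ℂ, IsCompact S → S ⊆ closedBall 0 (6 * y) →
    Content s (c * y ^ s) S → ∀ ρ : ℝ, 0 < ρ → ρ ≤ y →
    Wt S b t (E * y ^ (-b)) (E * y ^ (-(b + t))) ρ

theorem stSS (hW : StWt) : StSS := by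
  intro s t c ht hts hc
  obtain ⟨C, hC, hA⟩ := annUp
  obtain ⟨c0, s0, hc0, h12⟩ := t12 t1c t2 t3 H985T.st_A H934SL.st_L
  obtain ⟨E, hE, hW⟩ := hW s c (1/4) t hc (by norm_num) ht (by linarith)
  have hCC := CC_pos hC
  refine ⟨min ((c0 / 8) ^ 2 / (8 * (CC C * E))) 1,
    2 ^ (-t) / (32 * CC C ^ 2 * E ^ 2 / (c0 / 8) ^ 4), lt_min (by positivity) one_pos,
    min_le_right _ _, by positivity, ?_⟩
  intro R
  obtain ⟨_, _, δ0, -, -, hδ0, -, hsh⟩ := R.shape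
  refine ⟨δ0, hδ0, ?_⟩
  intro y hy hyY S hS hSC hcon ρ hρ hρy δ hδ hδ' hδρ
  have h : Scl δ y ρ := ⟨hδ, hδρ, hρy⟩
  obtain ⟨A, a1, a2, a3, a4⟩ := ss_core h hC hA hc0 h12 hyY (hsh δ hδ hδ').ok hSC ht hE
    (hW y hy S hS (hSC.trans (Cor_ball hy)) hcon ρ hρ (by linarith))
  exact ⟨A, a1, a2, (min_le_left _ _).trans a3, a4⟩

end Pool.Agent.Zk33.HG
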