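import Pool.Agent.Zk17.HF.Fros
import Pool.Agent.Zk33.HG.SS4

/-!
Scaling of the content.
-/

set_option autoImplicit false

namespace Pool.Agent.Zk33.HG

open Metric Set Pool.Agent.Zk33.HF Pool.Agent.Zk17.HF
open scoped ENNReal

/-- Content of a scaled set. -/
theorem content_smul {t c y : ℝ} (hy : 0 < y) {K : Set ℂ} (h : Content t c K) :
    Content t (c * y ^ t) ((fun z : ℂ => (y : ℂ) * z) '' K) := by
  classical
  intro s hs hcov
  have hyc : (y : ℂ) ≠ 0 := by exact_mod_cast hy.ne'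
  set s' : Finset (ℂ × ℝ) := s.image fun p => ((y : ℂ)⁻¹ * p.1, y⁻¹ * p.2) with hs'
  have h1 : c ≤ ∑ p ∈ s', p.2 ^ t := by
    apply h s'
    · intro p hp
      obtain ⟨q, hq, rfl⟩ := Finset.mem_image.1 hp
      have := hs q hq
      simp only
      positivity
    · intro z hz
      have h2 := hcov (mem_image_of_mem _ hz)
      simp only [mem_iUnion, exists_prop] at h2 ⊢
      obtain ⟨p, hp, hzp⟩ := h2
      refine ⟨_, Finset.mem_image_of_mem _ hp, ?_⟩
      rw [mem_ball, dist_eq_norm] at hzp ⊢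
      simp only
      have e : z - (y : ℂ)⁻¹ * p.1 = (y : ℂ)⁻¹ * ((y : ℂ) * z - p.1) := by field_simp
      rw [e, norm_mul, norm_inv, Complex.norm_real, Real.norm_eq_abs, abs_of_pos hy]
      exact mul_lt_mul_of_pos_left hzp (by positivity)
  have h2 : ∑ p ∈ s', p.2 ^ t ≤ ∑ p ∈ s, (y⁻¹ * p.2) ^ t := by
    rw [hs']
    rw [Finset.sum_image]
    intro p _ q _ hpq
    simp only [Prod.mk.injEq] at hpq
    have e1 : p.1 = q.1 := mul_left_cancel₀ (inv_ne_zero hyc) hpq.1
    have e2 : p.2 = q.2 := mul_left_cancel₀ (inv_ne_zero hy.ne') hpq.2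
    exact Prod.ext e1 e2
  have h3 : ∑ p ∈ s, (y⁻¹ * p.2) ^ t = (y ^ t)⁻¹ * ∑ p ∈ s, p.2 ^ t := by
    rw [Finset.mul_sum]
    refine Finset.sum_congr rfl fun p hp => ?_
    rw [Real.mul_rpow (by positivity) (hs p hp).le, Real.inv_rpow hy.le]
  have hyt : 0 < y ^ t := Real.rpow_pos_of_pos hy _
  have h4 := h1.trans h2
  rw [h3, inv_mul_eq_div, le_div_iff₀ hyt] at h4
  exact h4

theorem smul_smul_image {y : ℝ} (hy : 0 < y) (K : Set ℂ) :
    (fun z : ℂ => (y : ℂ) * z) '' ((fun z : ℂ => ((y⁻¹ : ℝ) : ℂ) * z) '' K) = K := by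
  have hyc : (y : ℂ) ≠ 0 := by exact_mod_cast hy.ne'
  rw [image_image]
  have : (fun z : ℂ => (y : ℂ) * (((y⁻¹ : ℝ) : ℂ) * z)) = fun z => z := by
    funext z
    push_cast
    field_simp
  rw [this, image_id']

theorem wt_scale : StWt := by
  intro s c b t hc hb ht h
  obtain ⟨E, hE, hW⟩ := wt_content (s := s) (c := c) (b := b) (t := t) (R := 6) hc hb ht h
    (by norm_num)
  refine ⟨E, hE, ?_⟩
  intro y hy S hS hSR hcon ρ hρ hρy
  have hyc : (y : ℂ) ≠ 0 := by exact_mod_cast hy.ne'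
  have hyi : 0 < y⁻¹ := inv_pos.2 hy
  set S' : Set ℂ := (fun z : ℂ => ((y⁻¹ : ℝ) : ℂ) * z) '' S with hS'
  have k1 : IsCompact S' := hS.image (continuous_const.mul continuous_id)
  have k2 : S' ⊆ closedBall 0 6 := by
    rintro _ ⟨z, hz, rfl⟩
    have h1 := hSR hz
    rw [mem_closedBall, dist_zero_right] at h1 ⊢
    simp only
    rw [norm_mul, Complex.norm_real, Real.norm_eq_abs, abs_of_pos hyi, inv_mul_eq_div,
      div_le_iff₀ hy]
    exact h1
  have k3 : Content s c S' := by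
    have h1 := content_smul hyi hcon
    have e : c * y ^ s * y⁻¹ ^ s = c := by
      rw [Real.inv_rpow hy.le]
      have := Real.rpow_pos_of_pos hy s
      field_simp
    rwa [e] at h1
  obtain ⟨V, w, x, hw, hx, h1, he0, he1⟩ := hW S' k1 k2 k3 (ρ / y) (by positivity)
    (by rwa [div_le_one hy])
  have hen : ∀ e : ℝ, ∑ i ∈ V, ∑ j ∈ V, w i * w j *
      (max (dist ((y : ℂ) * x i) ((y : ℂ) * x j)) ρ) ^ (-e) =
      (∑ i ∈ V, ∑ j ∈ V, w i * w j * (max (dist (x i) (x j)) (ρ / y)) ^ (-e)) * y ^ (-e) := by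
    intro e
    rw [Finset.sum_mul]
    refine Finset.sum_congr rfl fun i _ => ?_
    rw [Finset.sum_mul]
    refine Finset.sum_congr rfl fun j _ => ?_
    have e1 : max (dist ((y : ℂ) * x i) ((y : ℂ) * x j)) ρ =
        y * max (dist (x i) (x j)) (ρ / y) := by
      rw [mul_max_of_nonneg _ _ hy.le]
      congr 1
      · rw [dist_eq_norm, dist_eq_norm, ← mul_sub, norm_mul, Complex.norm_real, Real.norm_eq_abs,
          abs_of_pos hy]
      · field_simp
    rw [e1, Real.mul_rpow hy.le (le_max_of_le_left dist_nonneg)]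
    ring
  refine ⟨V, w, fun i => (y : ℂ) * x i, hw, ?_, h1, ?_, ?_⟩
  · intro i hi
    have h2 := hx i hi
    rw [← smul_smul_image hy S]
    exact mem_image_of_mem _ h2
  · rw [hen b]
    exact mul_le_mul_of_nonneg_right he0 (Real.rpow_nonneg hy.le _)
  · rw [hen (b + t)]
    exact mul_le_mul_of_nonneg_right he1 (Real.rpow_nonneg hy.le _)

theorem stSS' : StSS := stSS wt_scale

end Pool.Agent.Zk33.HG
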