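import Pool.Agent.Zk33.HG.Scal
import Pool.Agent.Zk11.HG.W

/-!
Sets which are invariant under a scaling.
-/

set_option autoImplicit false

namespace Pool.Agent.Zk33.HG

open H984N MeasureTheory Filter Topology Metric Set Pool.Agent.Zk33.HF
open scoped ENNReal NNReal

/-- The statement about thick sets. -/
def StTh : Prop := ∀ (k : ℕ) (R : Fin k → Rect) (μ : Fin k → ProbabilityMeasure X),
  (∀ i, IsLimit (R i) (μ i)) → ∀ S : Set ℂ, IsClosed S → ∀ s t c : ℝ, 0 ≤ t →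
  t + (k : ℝ) / 4 < s → 0 < c →
  (∀ Y : ℝ, 0 < Y → ∃ y : ℝ, 0 < y ∧ y < Y ∧ Content s (c * y ^ s) (S ∩ Cor y)) →
  ∀ᵐ ω ∂(Pm μ), ∀ r : ℝ, 0 < r →
    ((S ∩ ⋂ i, (R i).D) ∩ ball 0 r ∩ comm ω).Nonempty ∧
      ENNReal.ofReal t ≤ dimH ((S ∩ ⋂ i, (R i).D) ∩ ball 0 r ∩ comm ω)

theorem cone_cover {S : Set ℂ} (hC : ∀ z ∈ S, 9 * |z.re| ≤ z.im) :
    S ⊆ {0} ∪ ⋃ q : {q : ℚ // 0 < q}, S ∩ Cor ((q : ℚ) : ℝ) := by
  intro z hz
  have h1 := hC z hz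
  have h0 := abs_nonneg z.re
  by_cases h2 : z.im = 0
  · left
    have h3 : |z.re| = 0 := by linarith
    exact Complex.ext (abs_eq_zero.1 h3) h2
  · right
    have h3 : 0 < z.im := lt_of_le_of_ne (by linarith) (Ne.symm h2)
    obtain ⟨q, hq1, hq2⟩ := exists_rat_btwn (show 2 / 9 * z.im < 2 / 7 * z.im by linarith)
    have hq : (0 : ℚ) < q := by
      have : (0 : ℝ) < q := by linarith
      exact_mod_cast this
    rw [mem_iUnion]
    refine ⟨⟨q, hq⟩, hz, ?_, ?_, ?_⟩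
    · show |z.re| ≤ (q : ℝ) / 2
      linarith
    · show 7 / 2 * (q : ℝ) ≤ z.im
      linarith
    · show z.im ≤ 9 / 2 * (q : ℝ)
      linarith

theorem Cor_smul {a y : ℝ} (ha : 0 < a) {z : ℂ} (hz : z ∈ Cor y) : (a : ℂ) * z ∈ Cor (a * y) := by
  obtain ⟨h1, h2, h3⟩ := hz
  have e1 : ((a : ℂ) * z).re = a * z.re := by simp
  have e2 : ((a : ℂ) * z).im = a * z.im := by simp
  refine ⟨?_, ?_, ?_⟩
  · rw [e1, abs_mul, abs_of_pos ha, mul_div_assoc]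
    exact mul_le_mul_of_nonneg_left h1 ha.le
  · rw [e2]
    calc 7 / 2 * (a * y) = a * (7 / 2 * y) := by ring
      _ ≤ _ := mul_le_mul_of_nonneg_left h2 ha.le
  · rw [e2]
    calc a * z.im ≤ a * (9 / 2 * y) := mul_le_mul_of_nonneg_left h3 ha.le
      _ = _ := by ring

/-- Invariance under a scaling implies thickness. -/
theorem sim_thick {S : Set ℂ} {l s : ℝ} (hl : 0 < l) (hl1 : l < 1)
    (hlS : ∀ z ∈ S, (l : ℂ) * z ∈ S) (hC : ∀ z ∈ S, 9 * |z.re| ≤ z.im) (hs : 0 < s)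
    (hd : ENNReal.ofReal s < dimH S) : ∃ c : ℝ, 0 < c ∧ ∀ Y : ℝ, 0 < Y →
    ∃ y : ℝ, 0 < y ∧ y < Y ∧ Content s (c * y ^ s) (S ∩ Cor y) := by
  have h1 : ∃ q : {q : ℚ // 0 < q}, ENNReal.ofReal s < dimH (S ∩ Cor ((q : ℚ) : ℝ)) := by
    have h2 := hd.trans_le (dimH_mono (cone_cover hC))
    rw [dimH_union, dimH_singleton, dimH_iUnion, max_eq_right (zero_le), lt_iSup_iff] at h2
    exact h2
  obtain ⟨⟨q, hq⟩, h2⟩ := h1
  have hq' : (0 : ℝ) < q := by exact_mod_cast hq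
  obtain ⟨c0, hc0, h3⟩ := content_of_lt_dimH hs h2
  have hqs : 0 < (q : ℝ) ^ s := Real.rpow_pos_of_pos hq' _
  refine ⟨c0 / (q : ℝ) ^ s, by positivity, ?_⟩
  intro Y hY
  obtain ⟨n, hn⟩ := exists_pow_lt_of_lt_one (show 0 < Y / q by positivity) hl1
  have hln : 0 < l ^ n := by positivity
  refine ⟨l ^ n * q, by positivity, by rwa [lt_div_iff₀ hq'] at hn, ?_⟩
  have h4 := content_smul hln h3
  have e : c0 / (q : ℝ) ^ s * (l ^ n * q) ^ s = c0 * (l ^ n) ^ s := by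
    rw [Real.mul_rpow hln.le hq'.le]
    field_simp
  rw [e]
  refine h4.mono ?_
  rintro _ ⟨z, ⟨hzS, hzC⟩, rfl⟩
  refine ⟨?_, ?_⟩
  · have h5 : ∀ n : ℕ, ((l ^ n : ℝ) : ℂ) * z ∈ S := by
      intro n
      induction n with
      | zero => simpa using hzS
      | succ n ih =>
        have h6 := hlS _ ih
        have e2 : (l : ℂ) * (((l ^ n : ℝ) : ℂ) * z) = ((l ^ (n + 1) : ℝ) : ℂ) * z := by
          push_cast
          ring
        rwa [e2] at h6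
    exact h5 n
  · exact Cor_smul hln hzC

/-- Lower bound for sets with a scaling. -/
theorem sim_low (hT : StTh) {k : ℕ} (R : Fin k → Rect) {μ : Fin k → ProbabilityMeasure X}
    (hμ : ∀ i, IsLimit (R i) (μ i)) {S : Set ℂ} (hS : IsClosed S) {l : ℝ} (hl : 0 < l)
    (hl1 : l < 1) (hlS : ∀ z ∈ S, (l : ℂ) * z ∈ S) (hC : ∀ z ∈ S, 9 * |z.re| ≤ z.im)
    (hd : ENNReal.ofReal ((k : ℝ) / 4) < dimH S) :
    ∀ᵐ ω ∂(Pm μ), ∀ r : ℝ, 0 < r →
      ((S ∩ ⋂ i, (R i).D) ∩ ball 0 r ∩ comm ω).Nonempty ∧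
      dimH S - ENNReal.ofReal ((k : ℝ) / 4) ≤
        dimH ((S ∩ ⋂ i, (R i).D) ∩ ball 0 r ∩ comm ω) := by
  have hk0 : (0 : ℝ) ≤ (k : ℝ) / 4 := by positivity
  have hfin : dimH S ≠ ⊤ := by
    have h1 : dimH S ≤ 2 := by
      refine (dimH_mono (subset_univ _)).trans ?_
      rw [Real.dimH_univ_eq_finrank, Complex.finrank_real_complex]
      rfl
    exact ne_top_of_le_ne_top (by norm_num) h1
  obtain ⟨d, hd0, hdS⟩ : ∃ d : ℝ, 0 ≤ d ∧ dimH S = ENNReal.ofReal d :=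
    ⟨(dimH S).toReal, ENNReal.toReal_nonneg, (ENNReal.ofReal_toReal hfin).symm⟩
  rw [hdS] at hd ⊢
  have hkd : (k : ℝ) / 4 < d := ((ENNReal.ofReal_lt_ofReal_iff_of_nonneg hk0).1 hd)
  have key : ∀ q : ℚ, 0 ≤ (q : ℝ) → (q : ℝ) < d - (k : ℝ) / 4 → ∀ᵐ ω ∂(Pm μ), ∀ r : ℝ, 0 < r →
      ((S ∩ ⋂ i, (R i).D) ∩ ball 0 r ∩ comm ω).Nonempty ∧
      ENNReal.ofReal q ≤ dimH ((S ∩ ⋂ i, (R i).D) ∩ ball 0 r ∩ comm ω) := by
    intro q hq hqd
    obtain ⟨s, hs1, hs2⟩ := exists_between (show (q : ℝ) + (k : ℝ) / 4 < d by linarith)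
    have hs0 : 0 < s := by linarith
    obtain ⟨c, hc, h1⟩ := sim_thick hl hl1 hlS hC hs0
      (by rw [hdS]; exact (ENNReal.ofReal_lt_ofReal_iff (by linarith)).2 hs2)
    exact hT k R μ hμ S hS s q c hq hs1 hc h1
  have h2 : ∀ᵐ ω ∂(Pm μ), ∀ q : ℚ, 0 ≤ (q : ℝ) → (q : ℝ) < d - (k : ℝ) / 4 →
      ∀ r : ℝ, 0 < r → ((S ∩ ⋂ i, (R i).D) ∩ ball 0 r ∩ comm ω).Nonempty ∧
      ENNReal.ofReal q ≤ dimH ((S ∩ ⋂ i, (R i).D) ∩ ball 0 r ∩ comm ω) := by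
    rw [ae_all_iff]
    intro q
    by_cases hq : 0 ≤ (q : ℝ) ∧ (q : ℝ) < d - (k : ℝ) / 4
    · filter_upwards [key q hq.1 hq.2] with ω hω _ _
      exact hω
    · exact Eventually.of_forall fun ω h3 h4 => absurd ⟨h3, h4⟩ hq
  filter_upwards [h2] with ω hω r hr
  refine ⟨(hω 0 (by simp) (by push_cast; linarith) r hr).1, ?_⟩
  rw [← ENNReal.ofReal_sub _ hk0]
  refine le_of_forall_lt fun x hx => ?_
  have hxt : x ≠ ⊤ := (hx.trans ENNReal.ofReal_lt_top).ne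
  have hx2 : x.toReal < d - (k : ℝ) / 4 := by
    rw [← ENNReal.ofReal_toReal hxt] at hx
    exact (ENNReal.ofReal_lt_ofReal_iff_of_nonneg ENNReal.toReal_nonneg).1 hx
  obtain ⟨q, hq1, hq2⟩ := exists_rat_btwn hx2
  have hx0 : 0 ≤ x.toReal := ENNReal.toReal_nonneg
  refine lt_of_lt_of_le ?_ (hω q (hx0.trans hq1.le) hq2 r hr).2
  rw [← ENNReal.ofReal_toReal hxt]
  exact (ENNReal.ofReal_lt_ofReal_iff (by linarith)).2 hq1

/-- **Sets with a scaling.** -/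
theorem sim_eq (hT : StTh) {k : ℕ} (hk : 1 ≤ k) (R : Fin k → Rect)
    {μ : Fin k → ProbabilityMeasure X} (hμ : ∀ i, IsLimit (R i) (μ i)) {S : Set ℂ}
    (hS : IsClosed S) {l : ℝ} (hl : 0 < l) (hl1 : l < 1) (hlS : ∀ z ∈ S, (l : ℂ) * z ∈ S)
    (hC : ∀ z ∈ S, 9 * |z.re| ≤ z.im) (hd : ENNReal.ofReal ((k : ℝ) / 4) < dimH S) :
    ∀ᵐ ω ∂(Pm μ), ∀ r : ℝ, 0 < r →
      ((S ∩ ⋂ i, (R i).D) ∩ ball 0 r ∩ comm ω).Nonempty ∧
      dimH ((S ∩ ⋂ i, (R i).D) ∩ ball 0 r ∩ comm ω) =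
        dimH S - ENNReal.ofReal ((k : ℝ) / 4) := by
  have h1 := sim_low hT R hμ hS hl hl1 hlS hC hd
  have h2 := dim_up hk R hμ (S := S ∩ ⋂ i, (R i).D)
    (fun i => inter_subset_right.trans (iInter_subset _ i))
  filter_upwards [h1, h2] with ω hω hω2 r hr
  obtain ⟨h3, h4⟩ := hω r hr
  refine ⟨h3, le_antisymm ?_ h4⟩
  have h5 : (S ∩ ⋂ i, (R i).D) ∩ ball 0 r ∩ comm ω ⊆ (S ∩ ⋂ i, (R i).D) ∩ comm ω :=
    fun z hz => ⟨hz.1.1, hz.2⟩
  exact (dimH_mono h5).trans (hω2.1.trans (tsub_le_tsub_right (dimH_mono inter_subset_left) _))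

/-- The closed cone. -/
def Cone : Set ℂ := {z | 9 * |z.re| ≤ z.im}

theorem Cone_closed : IsClosed Cone :=
  isClosed_le (continuous_const.mul Complex.continuous_re.abs) Complex.continuous_im

theorem Cone_dim : dimH Cone = 2 := by
  have h : (interior Cone).Nonempty := by
    refine ⟨Complex.I, ?_⟩
    rw [mem_interior_iff_mem_nhds]
    have h1 : {z : ℂ | 9 * |z.re| < z.im} ∈ 𝓝 Complex.I := by
      apply IsOpen.mem_nhds
      · exact isOpen_lt (continuous_const.mul Complex.continuous_re.abs) Complex.continuous_im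
      · simp
    refine mem_of_superset h1 fun z hz => ?_
    have hz' : 9 * |z.re| < z.im := hz
    exact hz'.le
  rw [Real.dimH_of_nonempty_interior h, Complex.finrank_real_complex]
  rfl

theorem dimD {k : ℕ} (R : Fin k → Rect) : dimH (⋂ i, (R i).D) ≤ 2 := by
  refine (dimH_mono (subset_univ _)).trans ?_
  rw [Real.dimH_univ_eq_finrank, Complex.finrank_real_complex]
  rfl

/-- **At most seven paths.** -/
theorem seven (hT : StTh) {k : ℕ} (hk : 1 ≤ k) (hk7 : k ≤ 7) (R : Fin k → Rect)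
    {μ : Fin k → ProbabilityMeasure X} (hμ : ∀ i, IsLimit (R i) (μ i)) :
    ∀ᵐ ω ∂(Pm μ), ∀ r : ℝ, 0 < r →
      dimH ((⋂ i, (R i).D) ∩ ball 0 r ∩ comm ω) = ENNReal.ofReal (2 - (k : ℝ) / 4) := by
  have hk' : (k : ℝ) ≤ 7 := by exact_mod_cast hk7
  have h2 : (2 : ℝ≥0∞) = ENNReal.ofReal 2 := by simp
  have h1 := sim_low hT R hμ Cone_closed (l := 1/2) (by norm_num) (by norm_num)
    (by
      intro z hz
      have e1 : (((1/2 : ℝ) : ℂ) * z).re = 1/2 * z.re := by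
        rw [Complex.re_ofReal_mul]
      have e2 : (((1/2 : ℝ) : ℂ) * z).im = 1/2 * z.im := by
        rw [Complex.im_ofReal_mul]
      have hz' : 9 * |z.re| ≤ z.im := hz
      show 9 * |(((1/2 : ℝ) : ℂ) * z).re| ≤ (((1/2 : ℝ) : ℂ) * z).im
      rw [e1, e2, abs_mul, abs_of_pos (by norm_num : (0:ℝ) < 1/2)]
      linarith)
    (fun z hz => hz) (by
      rw [Cone_dim, h2]
      exact (ENNReal.ofReal_lt_ofReal_iff (by norm_num)).2 (by linarith))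
  have h3 := dim_up hk R hμ (S := ⋂ i, (R i).D) (fun i => iInter_subset _ i)
  rw [Cone_dim] at h1
  have e3 : (2 : ℝ≥0∞) - ENNReal.ofReal ((k : ℝ) / 4) = ENNReal.ofReal (2 - (k : ℝ) / 4) := by
    rw [h2, ← ENNReal.ofReal_sub _ (by positivity)]
  filter_upwards [h1, h3] with ω hω hω3 r hr
  apply le_antisymm
  · have h5 : (⋂ i, (R i).D) ∩ ball 0 r ∩ comm ω ⊆ (⋂ i, (R i).D) ∩ comm ω :=
      fun z hz => ⟨hz.1.1, hz.2⟩
    rw [← e3]
    exact (dimH_mono h5).trans (hω3.1.trans (tsub_le_tsub_right (dimD R) _))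
  · rw [← e3]
    refine (hω r hr).2.trans (dimH_mono ?_)
    exact fun z hz => ⟨⟨hz.1.1.2, hz.1.2⟩, hz.2⟩

end Pool.Agent.Zk33.HG
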