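import Pool.Agent.Zk33.HG.Sim

/-!
Nonempty intersections.
-/

set_option autoImplicit false

namespace Pool.Agent.Zk33.HG

open H984N MeasureTheory Filter Topology Metric Set Pool.Agent.Zk33.HF
open scoped ENNReal NNReal

theorem seven_ne (hT : StTh) {k : ℕ} (hk : 1 ≤ k) (hk7 : k ≤ 7) (R : Fin k → Rect)
    {μ : Fin k → ProbabilityMeasure X} (hμ : ∀ i, IsLimit (R i) (μ i)) :
    ∀ᵐ ω ∂(Pm μ), ∀ r : ℝ, 0 < r →
      ((⋂ i, (R i).D) ∩ ball 0 r ∩ comm ω).Nonempty ∧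
      dimH ((⋂ i, (R i).D) ∩ ball 0 r ∩ comm ω) = ENNReal.ofReal (2 - (k : ℝ) / 4) := by
  have hk' : (k : ℝ) ≤ 7 := by exact_mod_cast hk7
  filter_upwards [seven hT hk hk7 R hμ] with ω hω r hr
  refine ⟨?_, hω r hr⟩
  by_contra hcon
  have h1 := hω r hr
  rw [not_nonempty_iff_eq_empty.1 hcon, dimH_empty] at h1
  have h2 : 0 < ENNReal.ofReal (2 - (k : ℝ) / 4) := ENNReal.ofReal_pos.2 (by linarith)
  rw [← h1] at h2
  exact lt_irrefl _ h2

end Pool.Agent.Zk33.HG
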