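import Pool.Agent.Zk33.HG.All

/-!
Thick sets: the optimal dimension.
-/

set_option autoImplicit false

namespace Pool.Agent.Zk33.HG

open H984N MeasureTheory Filter Topology Metric Set Pool.Agent.Zk33.HF
open scoped ENNReal NNReal

/-- The optimal dimension for thick sets. -/
theorem thick_sup {k : ℕ} (R : Fin k → Rect) {μ : Fin k → ProbabilityMeasure X}
    (hμ : ∀ i, IsLimit (R i) (μ i)) {S : Set ℂ} (hS : IsClosed S) {s c : ℝ}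
    (hs : (k : ℝ) / 4 < s) (hc : 0 < c)
    (h : ∀ Y : ℝ, 0 < Y → ∃ y : ℝ, 0 < y ∧ y < Y ∧ Content s (c * y ^ s) (S ∩ Cor y)) :
    ∀ᵐ ω ∂(Pm μ), ∀ r : ℝ, 0 < r →
      ((S ∩ ⋂ i, (R i).D) ∩ ball 0 r ∩ comm ω).Nonempty ∧
      ENNReal.ofReal (s - (k : ℝ) / 4) ≤
        dimH ((S ∩ ⋂ i, (R i).D) ∩ ball 0 r ∩ comm ω) := by
  have key : ∀ q : ℚ, 0 ≤ (q : ℝ) → (q : ℝ) < s - (k : ℝ) / 4 → ∀ᵐ ω ∂(Pm μ), ∀ r : ℝ, 0 < r →
      ((S ∩ ⋂ i, (R i).D) ∩ ball 0 r ∩ comm ω).Nonempty ∧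
      ENNReal.ofReal q ≤ dimH ((S ∩ ⋂ i, (R i).D) ∩ ball 0 r ∩ comm ω) := by
    intro q hq hqd
    exact stTh k R μ hμ S hS s q c hq (by linarith) hc h
  have h2 : ∀ᵐ ω ∂(Pm μ), ∀ q : ℚ, 0 ≤ (q : ℝ) → (q : ℝ) < s - (k : ℝ) / 4 →
      ∀ r : ℝ, 0 < r → ((S ∩ ⋂ i, (R i).D) ∩ ball 0 r ∩ comm ω).Nonempty ∧
      ENNReal.ofReal q ≤ dimH ((S ∩ ⋂ i, (R i).D) ∩ ball 0 r ∩ comm ω) := by
    rw [ae_all_iff]
    intro q
    by_cases hq : 0 ≤ (q : ℝ) ∧ (q : ℝ) < s - (k : ℝ) / 4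
    · filter_upwards [key q hq.1 hq.2] with ω hω _ _
      exact hω
    · exact Eventually.of_forall fun ω h3 h4 => absurd ⟨h3, h4⟩ hq
  filter_upwards [h2] with ω hω r hr
  refine ⟨(hω 0 (by simp) (by push_cast; linarith) r hr).1, ?_⟩
  refine le_of_forall_lt fun x hx => ?_
  have hxt : x ≠ ⊤ := (hx.trans ENNReal.ofReal_lt_top).ne
  have hx2 : x.toReal < s - (k : ℝ) / 4 := by
    rw [← ENNReal.ofReal_toReal hxt] at hx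
    exact (ENNReal.ofReal_lt_ofReal_iff_of_nonneg ENNReal.toReal_nonneg).1 hx
  obtain ⟨q, hq1, hq2⟩ := exists_rat_btwn hx2
  have hx0 : 0 ≤ x.toReal := ENNReal.toReal_nonneg
  refine lt_of_lt_of_le ?_ (hω q (hx0.trans hq1.le) hq2 r hr).2
  rw [← ENNReal.ofReal_toReal hxt]
  exact (ENNReal.ofReal_lt_ofReal_iff (by linarith)).2 hq1

end Pool.Agent.Zk33.HG
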